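import Pool.Agent.H564R3.TS.Defs

/-!
Optimal bracketings (triangulations of a convex polygon) by pure programs: definitions.
-/

set_option autoImplicit false

namespace Pool.Agent.H564R3.CY

open Finset

/-- `bracket w i len` is the sum over all binary bracketings of the interval from `i` to `i + len`
(equivalently: triangulations of the convex polygon with the vertices `i, ..., i + len`) of the
product of the weights of the triangles; `w i k j` is the weight of the triangle `i < k < j`. -/
def bracket {R : Type} [CommSemiring R] (w : ℕ → ℕ → ℕ → R) : ℕ → ℕ → R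
  | _, 0 => 1
  | _, 1 => 1
  | i, len + 2 => ∑ a : Fin (len + 1), w i (i + a + 1) (i + len + 2) *
      bracket w i (a + 1) * bracket w (i + a + 1) (len + 1 - a)
termination_by _ len => len
decreasing_by
  all_goals omega

/-- The sum over all triangulations of the convex polygon with the vertices `0, ..., n` of the
product of the weights of the triangles (over the tropical semiring: the least total weight). -/
def triSum {R : Type} [CommSemiring R] {n : ℕ} (w : Fin (n + 1) × Fin (n + 1) × Fin (n + 1) → R) :
    R :=
  bracket (fun i k j => w (Fin.ofNat (n + 1) i, Fin.ofNat (n + 1) k, Fin.ofNat (n + 1) j)) 0 n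

/-- the variable of constraint `t` of a strip: the labels of the nodes `t`, `t + 1`, `t + 2` -/
def sv {N m : ℕ} (φ : Fin (N + 2) → Fin m) (t : Fin N) : Fin N × Fin m × Fin m × Fin m :=
  (t, φ ⟨t.val, by omega⟩, φ ⟨t.val + 1, by omega⟩, φ ⟨t.val + 2, by omega⟩)

/-- the sum over all labellings of the `N + 2` nodes of the product of the weights of the `N`
triples of consecutive nodes -/
def stripSum {R : Type} [CommSemiring R] {N m : ℕ} (w : Fin N × Fin m × Fin m × Fin m → R) : R :=
  ∑ φ : Fin (N + 2) → Fin m, ∏ t : Fin N, w (sv φ t)

/-- the variables of a labelling -/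
def sset {N m : ℕ} (φ : Fin (N + 2) → Fin m) : Finset (Fin N × Fin m × Fin m × Fin m) :=
  univ.image (sv φ)

/-- the triple of a variable -/
def spos {N m : ℕ} (x : Fin N × Fin m × Fin m × Fin m) : Finset (Fin N) := {x.1}

/-- node `v` belongs to the triple `t` -/
def Inc {N : ℕ} (t : Fin N) (v : Fin (N + 2)) : Prop := t.val ≤ v.val ∧ v.val ≤ t.val + 2

/-- `v` is a boundary node of the set `Z` of triples -/
def Bd {N : ℕ} (Z : Finset (Fin N)) (v : Fin (N + 2)) : Prop :=
  (∃ t ∈ Z, Inc t v) ∧ ∃ t, t ∉ Z ∧ Inc t v

/-- the weights of a strip from position `t` on: `tail w N t a b` is the sum over the labels of the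
nodes `t + 2, t + 3, ...` (`s` further triples) when the nodes `t`, `t + 1` have the labels `a`,
`b` -/
def tail {R : Type} [CommSemiring R] {m : ℕ} (w : ℕ → Fin m → Fin m → Fin m → R) :
    ℕ → ℕ → Fin m → Fin m → R
  | 0, _, _, _ => 1
  | s + 1, t, a, b => ∑ c : Fin m, w t a b c * tail w s (t + 1) b c

end Pool.Agent.H564R3.CY
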