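import Pool.Agent.H564R3.CY.Defs

/-! The sum over a strip by recursion. -/

set_option autoImplicit false

namespace Pool.Agent.H564R3.CY

open Finset
open Pool.Agent.H564R3.TS

/-- product of the weights of a labelling, with a general start -/
def CYD_F {R : Type} [CommSemiring R] {m : ℕ} (w : ℕ → Fin m → Fin m → Fin m → R) (s t0 : ℕ)
    (φ : Fin (s + 2) → Fin m) : R :=
  ∏ t : Fin s, w (t0 + t.val) (φ ⟨t.val, by omega⟩) (φ ⟨t.val + 1, by omega⟩)
    (φ ⟨t.val + 2, by omega⟩)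

theorem CYD_cons {R : Type} [CommSemiring R] {m k : ℕ} (f : (Fin (k + 1) → Fin m) → R) :
    ∑ φ : Fin (k + 1) → Fin m, f φ =
      ∑ a : Fin m, ∑ ψ : Fin k → Fin m, f (Fin.cons (α := fun _ => Fin m) a ψ) := by
  rw [← (Fin.consEquiv (fun _ : Fin (k + 1) => Fin m)).sum_comp, Fintype.sum_prod_type]
  rfl

theorem CYD_step {R : Type} [CommSemiring R] {m : ℕ} (w : ℕ → Fin m → Fin m → Fin m → R)
    (s t0 : ℕ) (a : Fin m) (φ : Fin (s + 2) → Fin m) :
    CYD_F w (s + 1) t0 (Fin.cons (α := fun _ => Fin m) a φ) =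
      w t0 a (φ ⟨0, by omega⟩) (φ ⟨1, by omega⟩) * CYD_F w s (t0 + 1) φ := by
  unfold CYD_F
  rw [Fin.prod_univ_succ]
  congr 1
  apply Finset.prod_congr rfl
  intro t _
  have e : t0 + (t.succ : Fin (s + 1)).val = t0 + 1 + t.val := by
    rw [Fin.val_succ]; omega
  rw [e]
  rfl

theorem CYD_main {R : Type} [CommSemiring R] {m : ℕ} (w : ℕ → Fin m → Fin m → Fin m → R)
    (s : ℕ) : ∀ (t0 : ℕ) (a b : Fin m), ∑ ψ : Fin s → Fin m,
      CYD_F w s t0 (Fin.cons (α := fun _ => Fin m) a (Fin.cons (α := fun _ => Fin m) b ψ)) =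
        tail w s t0 a b := by
  induction s with
  | zero =>
    intro t0 a b
    simp [CYD_F, tail]
  | succ s ih =>
    intro t0 a b
    rw [CYD_cons]
    show _ = ∑ c : Fin m, w t0 a b c * tail w s (t0 + 1) b c
    apply Finset.sum_congr rfl
    intro c _
    rw [← ih, Finset.mul_sum]
    apply Finset.sum_congr rfl
    intro ψ _
    rw [CYD_step]
    rfl

/-- the sum over a strip by recursion -/
theorem strip_tail {R : Type} [CommSemiring R] (N m : ℕ) (w : ℕ → Fin m → Fin m → Fin m → R) :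
    stripSum (N := N) (fun x => w x.1.val x.2.1 x.2.2.1 x.2.2.2) =
      ∑ a : Fin m, ∑ b : Fin m, tail w N 0 a b := by
  have h1 : stripSum (N := N) (fun x => w x.1.val x.2.1 x.2.2.1 x.2.2.2) =
      ∑ φ : Fin (N + 2) → Fin m, CYD_F w N 0 φ := by
    unfold stripSum CYD_F sv
    apply Finset.sum_congr rfl
    intro φ _
    apply Finset.prod_congr rfl
    intro t _
    rw [Nat.zero_add]
  rw [h1, CYD_cons]
  apply Finset.sum_congr rfl
  intro a _
  rw [CYD_cons]
  apply Finset.sum_congr rfl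
  intro b _
  exact CYD_main w N 0 a b

end Pool.Agent.H564R3.CY
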