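import Pool.Agent.H564R3.CY.Defs
import Pool.Agent.H564R3.CY.Tail

/-! The strip polynomial is a projection of the triangulation polynomial. -/

set_option autoImplicit false

namespace Pool.Agent.H564R3.CY

open Finset
open Pool.Agent.H564R3.TS

/-! ### general facts on bracketings -/

theorem CYE_congr {R : Type} [CommSemiring R] (w1 w2 : ℕ → ℕ → ℕ → R) (len : ℕ) :
    ∀ i : ℕ, (∀ i' k j, i ≤ i' → i' < k → k < j → j ≤ i + len → w1 i' k j = w2 i' k j) →
      bracket w1 i len = bracket w2 i len := by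
  induction len using Nat.strong_induction_on with
  | _ len ih =>
    intro i h
    match len, ih, h with
    | 0, _, _ => rw [bracket, bracket]
    | 1, _, _ => rw [bracket, bracket]
    | len + 2, ih, h =>
      rw [bracket, bracket]
      apply Finset.sum_congr rfl
      intro a _
      have ha := a.2
      rw [h i (i + a + 1) (i + len + 2) le_rfl (by omega) (by omega) (by omega)]
      rw [ih (a + 1) (by omega) i (fun i' k j h1 h2 h3 h4 => h i' k j h1 h2 h3 (by omega))]
      rw [ih (len + 1 - a) (by omega) (i + a + 1)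
        (fun i' k j h1 h2 h3 h4 => h i' k j (by omega) h2 h3 (by omega))]

/-- value of an interval -/
def CYE_F {R : Type} [CommSemiring R] (w : ℕ → ℕ → ℕ → R) (i j : ℕ) : R := bracket w i (j - i)

theorem CYE_one {R : Type} [CommSemiring R] (w : ℕ → ℕ → ℕ → R) (i : ℕ) :
    CYE_F w i (i + 1) = 1 := by
  unfold CYE_F
  rw [Nat.add_sub_cancel_left, bracket]

theorem CYE_win {R : Type} [CommSemiring R] {m : ℕ} (i j : ℕ) (e : Fin m → ℕ)
    (he : Function.Injective e) (hin : ∀ a, i < e a ∧ e a < j) (g : ℕ → R)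
    (h0 : ∀ k, i < k → k < j → (∀ a, e a ≠ k) → g k = 0) :
    ∑ k ∈ Ioo i j, g k = ∑ a : Fin m, g (e a) := by
  classical
  have h1 : univ.image e ⊆ Ioo i j := by
    intro k hk
    rw [mem_image] at hk
    obtain ⟨a, -, rfl⟩ := hk
    rw [mem_Ioo]
    exact hin a
  rw [← Finset.sum_subset h1, Finset.sum_image (fun a _ b _ h => he h)]
  intro k hk hk2
  rw [mem_Ioo] at hk
  apply h0 k hk.1 hk.2
  intro a ha
  apply hk2
  rw [mem_image]
  exact ⟨a, mem_univ _, ha⟩

theorem CYE_rec {R : Type} [CommSemiring R] (w : ℕ → ℕ → ℕ → R) {i j : ℕ} (h : i + 2 ≤ j) :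
    CYE_F w i j = ∑ k ∈ Ioo i j, w i k j * CYE_F w i k * CYE_F w k j := by
  obtain ⟨len, rfl⟩ : ∃ len, j = i + len + 2 := ⟨j - i - 2, by omega⟩
  rw [CYE_win (m := len + 1) i (i + len + 2) (fun a => i + a.val + 1)
    (fun a b hab => Fin.ext (by simp only at hab; omega))
    (fun a => ⟨by omega, by have := a.2; omega⟩)]
  · unfold CYE_F
    have e1 : i + len + 2 - i = len + 2 := by omega
    rw [e1, bracket]
    apply Finset.sum_congr rfl
    intro a _
    have ha := a.2
    have e2 : i + a.val + 1 - i = a.val + 1 := by omega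
    have e3 : i + len + 2 - (i + a.val + 1) = len + 1 - a.val := by omega
    rw [e2, e3]
  · intro k hk1 hk2 hk3
    exfalso
    exact hk3 ⟨k - i - 1, by omega⟩ (by simp only; omega)

theorem CYE_single {R : Type} [CommSemiring R] (w : ℕ → ℕ → ℕ → R) {i j : ℕ} (h : i + 2 ≤ j)
    (h1 : w i (i + 1) j = 1) (h0 : ∀ k, i + 1 < k → k < j → w i k j = 0) :
    CYE_F w i j = CYE_F w (i + 1) j := by
  rw [CYE_rec w h, Finset.sum_eq_single (i + 1)]
  · rw [h1, CYE_one, one_mul, one_mul]
  · intro k hk hk2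
    rw [mem_Ioo] at hk
    rw [h0 k (by omega) hk.2, zero_mul, zero_mul]
  · intro hk
    exfalso
    apply hk
    rw [mem_Ioo]
    omega

theorem CYE_winF {R : Type} [CommSemiring R] {m : ℕ} (w : ℕ → ℕ → ℕ → R) {i j : ℕ}
    (h : i + 2 ≤ j) (e : Fin m → ℕ)
    (he : Function.Injective e) (hin : ∀ a, i < e a ∧ e a < j)
    (h0 : ∀ k, i < k → k < j → (∀ a, e a ≠ k) → w i k j = 0) :
    CYE_F w i j = ∑ a : Fin m, w i (e a) j * CYE_F w i (e a) * CYE_F w (e a) j := by
  rw [CYE_rec w h]
  apply CYE_win i j e he hin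
  intro k h1 h2 h3
  rw [h0 k h1 h2 h3, zero_mul, zero_mul]

/-! ### the substitution -/

/-- the substitution -/
def CYE_s (L m n : ℕ) (hm : 1 ≤ m) (i k j : ℕ) : (Fin (2 * L) × Fin m × Fin m × Fin m) ⊕ Bool :=
  if i ≤ (L + 1) * m ∧ (L + 1) * m < j then
    if i = 0 then Sum.inr (decide (k ≤ m))
    else if j = n then Sum.inr (decide (n ≤ k + m))
    else if h : (i - 1) / m < L ∧ (i - 1) / m = (n - 1 - j) / m then
      if (k - 1) / m = (i - 1) / m + 1 then
        Sum.inl (⟨2 * ((i - 1) / m), by omega⟩, ⟨(i - 1) % m, Nat.mod_lt _ hm⟩,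
          ⟨(n - 1 - j) % m, Nat.mod_lt _ hm⟩, ⟨(k - 1) % m, Nat.mod_lt _ hm⟩)
      else Sum.inr false
    else if h : (n - 1 - j) / m < L ∧ (i - 1) / m = (n - 1 - j) / m + 1 then
      if (n - 1 - k) / m = (n - 1 - j) / m + 1 then
        Sum.inl (⟨2 * ((n - 1 - j) / m) + 1, by omega⟩, ⟨(n - 1 - j) % m, Nat.mod_lt _ hm⟩,
          ⟨(i - 1) % m, Nat.mod_lt _ hm⟩, ⟨(n - 1 - k) % m, Nat.mod_lt _ hm⟩)
      else Sum.inr false
    else Sum.inr (decide (k = i + 1))
  else Sum.inr (decide (k = i + 1))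

/-- the weights -/
def CYE_w {R : Type} [CommSemiring R] (L m n : ℕ) (hm : 1 ≤ m)
    (w' : Fin (2 * L) × Fin m × Fin m × Fin m → R) (i k j : ℕ) : R :=
  Sum.elim w' (fun b => if b then 1 else 0) (CYE_s L m n hm i k j)

theorem CYE_div {m : ℕ} (l a : ℕ) (ha : a < m) : (l * m + a) / m = l := by
  have hm : 0 < m := by omega
  rw [Nat.mul_comm, Nat.mul_add_div hm, Nat.div_eq_of_lt ha, Nat.add_zero]

theorem CYE_mod {m : ℕ} (l a : ℕ) (ha : a < m) : (l * m + a) % m = a := by
  rw [Nat.mul_comm, Nat.mul_add_mod, Nat.mod_eq_of_lt ha]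

section
variable {R : Type} [CommSemiring R] {L m n : ℕ} (hm : 1 ≤ m)
  (w' : Fin (2 * L) × Fin m × Fin m × Fin m → R)

/-- both ends on the same side -/
theorem CYE_w_same {i k j : ℕ} (h : ¬ (i ≤ (L + 1) * m ∧ (L + 1) * m < j)) :
    CYE_w L m n hm w' i k j = if k = i + 1 then 1 else 0 := by
  unfold CYE_w CYE_s
  rw [if_neg h]
  simp

theorem CYE_w_root {k j : ℕ} (h : (L + 1) * m < j) :
    CYE_w L m n hm w' 0 k j = if k ≤ m then 1 else 0 := by
  unfold CYE_w CYE_s
  rw [if_pos ⟨Nat.zero_le _, h⟩, if_pos rfl]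
  simp

theorem CYE_w_n {i k : ℕ} (hi : 1 ≤ i) (h : i ≤ (L + 1) * m) (hn : (L + 1) * m < n) :
    CYE_w L m n hm w' i k n = if n ≤ k + m then 1 else 0 := by
  unfold CYE_w CYE_s
  rw [if_pos ⟨h, hn⟩, if_neg (by omega), if_pos rfl]
  simp

theorem CYE_w_even {i j l : ℕ} (hi : 1 ≤ i) (h : i ≤ (L + 1) * m) (hj : (L + 1) * m < j)
    (hjn : j < n) (hl : l < L) (a b : Fin m) (e1 : i - 1 = l * m + a) (e2 : n - 1 - j = l * m + b)
    (k : ℕ) :
    ((k - 1) / m ≠ l + 1 → CYE_w L m n hm w' i k j = 0) ∧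
    ∀ c : Fin m, k - 1 = (l + 1) * m + c →
      CYE_w L m n hm w' i k j = w' (⟨2 * l, by omega⟩, a, b, c) := by
  have d1 : (i - 1) / m = l := by rw [e1]; exact CYE_div l a a.2
  have d2 : (n - 1 - j) / m = l := by rw [e2]; exact CYE_div l b b.2
  have m1 : (i - 1) % m = a := by rw [e1]; exact CYE_mod l a a.2
  have m2 : (n - 1 - j) % m = b := by rw [e2]; exact CYE_mod l b b.2
  have h0 : (i - 1) / m < L ∧ (i - 1) / m = (n - 1 - j) / m := by rw [d1, d2]; exact ⟨hl, rfl⟩
  constructor
  · intro hk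
    unfold CYE_w CYE_s
    rw [if_pos ⟨h, hj⟩, if_neg (by omega), if_neg (by omega), dif_pos h0, if_neg (by rw [d1]; exact hk)]
    simp
  · intro c hk
    have d3 : (k - 1) / m = l + 1 := by rw [hk]; exact CYE_div (l + 1) c c.2
    have m3 : (k - 1) % m = c := by rw [hk]; exact CYE_mod (l + 1) c c.2
    unfold CYE_w CYE_s
    rw [if_pos ⟨h, hj⟩, if_neg (by omega), if_neg (by omega), dif_pos h0,
      if_pos (by rw [d1, d3]), Sum.elim_inl]
    congr 1
    simp only [Prod.mk.injEq, Fin.ext_iff]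
    exact ⟨by rw [d1], m1, m2, m3⟩

theorem CYE_w_odd {i j l : ℕ} (hi : 1 ≤ i) (h : i ≤ (L + 1) * m) (hj : (L + 1) * m < j)
    (hjn : j < n) (hl : l < L) (c b : Fin m) (e1 : i - 1 = (l + 1) * m + c)
    (e2 : n - 1 - j = l * m + b) (k : ℕ) :
    ((n - 1 - k) / m ≠ l + 1 → CYE_w L m n hm w' i k j = 0) ∧
    ∀ d : Fin m, n - 1 - k = (l + 1) * m + d →
      CYE_w L m n hm w' i k j = w' (⟨2 * l + 1, by omega⟩, b, c, d) := by
  have d1 : (i - 1) / m = l + 1 := by rw [e1]; exact CYE_div (l + 1) c c.2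
  have d2 : (n - 1 - j) / m = l := by rw [e2]; exact CYE_div l b b.2
  have m1 : (i - 1) % m = c := by rw [e1]; exact CYE_mod (l + 1) c c.2
  have m2 : (n - 1 - j) % m = b := by rw [e2]; exact CYE_mod l b b.2
  have h0 : ¬ ((i - 1) / m < L ∧ (i - 1) / m = (n - 1 - j) / m) := by rw [d1, d2]; omega
  have h00 : (n - 1 - j) / m < L ∧ (i - 1) / m = (n - 1 - j) / m + 1 := by
    rw [d1, d2]; exact ⟨hl, rfl⟩
  constructor
  · intro hk
    unfold CYE_w CYE_s
    rw [if_pos ⟨h, hj⟩, if_neg (by omega), if_neg (by omega), dif_neg h0, dif_pos h00,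
      if_neg (by rw [d2]; exact hk)]
    simp
  · intro d hk
    have d3 : (n - 1 - k) / m = l + 1 := by rw [hk]; exact CYE_div (l + 1) d d.2
    have m3 : (n - 1 - k) % m = d := by rw [hk]; exact CYE_mod (l + 1) d d.2
    unfold CYE_w CYE_s
    rw [if_pos ⟨h, hj⟩, if_neg (by omega), if_neg (by omega), dif_neg h0, dif_pos h00,
      if_pos (by rw [d2, d3]), Sum.elim_inl]
    congr 1
    simp only [Prod.mk.injEq, Fin.ext_iff]
    exact ⟨by rw [d2], m2, m1, m3⟩

theorem CYE_w_base {i j : ℕ} (hi : 1 ≤ i) (h : i ≤ (L + 1) * m) (hj : (L + 1) * m < j)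
    (hjn : j < n) (d1 : (i - 1) / m = L) (d2 : L ≤ (n - 1 - j) / m)
    (k : ℕ) : CYE_w L m n hm w' i k j = if k = i + 1 then 1 else 0 := by
  unfold CYE_w CYE_s
  rw [if_pos ⟨h, hj⟩, if_neg (by omega), if_neg (by omega), dif_neg (by omega), dif_neg (by omega)]
  simp

/-! ### values -/

theorem CYE_left {i j : ℕ} (hij : i < j) (hj : j ≤ (L + 1) * m) :
    CYE_F (CYE_w L m n hm w') i j = 1 := by
  obtain ⟨d, hd⟩ : ∃ d, d = j - i := ⟨_, rfl⟩
  induction d generalizing i with
  | zero => omega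
  | succ d ih =>
    by_cases h : j = i + 1
    · rw [h, CYE_one]
    · rw [CYE_single _ (by omega)]
      · exact ih (by omega) (by omega)
      · rw [CYE_w_same hm w' (by omega), if_pos rfl]
      · intro k h1 h2
        rw [CYE_w_same hm w' (by omega), if_neg (by omega)]

theorem CYE_right {i j : ℕ} (hij : i < j) (hi : (L + 1) * m < i) :
    CYE_F (CYE_w L m n hm w') i j = 1 := by
  obtain ⟨d, hd⟩ : ∃ d, d = j - i := ⟨_, rfl⟩
  induction d generalizing i with
  | zero => omega
  | succ d ih =>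
    by_cases h : j = i + 1
    · rw [h, CYE_one]
    · rw [CYE_single _ (by omega)]
      · exact ih (by omega) (by omega) (by omega)
      · rw [CYE_w_same hm w' (by omega), if_pos rfl]
      · intro k h1 h2
        rw [CYE_w_same hm w' (by omega), if_neg (by omega)]

theorem CYE_base {i j : ℕ} (hi : 1 ≤ i) (h : i ≤ (L + 1) * m) (hj : (L + 1) * m < j)
    (hjn : j < n) (d1 : L * m < i) (d2 : L ≤ (n - 1 - j) / m) :
    CYE_F (CYE_w L m n hm w') i j = 1 := by
  obtain ⟨d, hd⟩ : ∃ d, d = (L + 1) * m - i := ⟨_, rfl⟩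
  have hA : (L + 1) * m = L * m + m := Nat.succ_mul L m
  induction d generalizing i with
  | zero =>
    by_cases h2 : j = i + 1
    · rw [h2, CYE_one]
    · have d3 : (i - 1) / m = L := by
        have e : i - 1 = L * m + (i - 1 - L * m) := by omega
        rw [e]
        exact CYE_div _ _ (by omega)
      rw [CYE_single _ (by omega)]
      · exact CYE_right hm w' (by omega) (by omega)
      · rw [CYE_w_base hm w' hi h hj hjn d3 d2, if_pos rfl]
      · intro k h3 h4
        rw [CYE_w_base hm w' hi h hj hjn d3 d2, if_neg (by omega)]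
  | succ d ih =>
    have d3 : (i - 1) / m = L := by
      have e : i - 1 = L * m + (i - 1 - L * m) := by omega
      rw [e]
      exact CYE_div _ _ (by omega)
    rw [CYE_single _ (by omega)]
    · exact ih (by omega) (by omega) (by omega) (by omega)
    · rw [CYE_w_base hm w' hi h hj hjn d3 d2, if_pos rfl]
    · intro k h3 h4
      rw [CYE_w_base hm w' hi h hj hjn d3 d2, if_neg (by omega)]

/-- the weights as a function of natural numbers -/
def CYE_wt {R : Type} [CommSemiring R] {L m : ℕ} (w' : Fin (2 * L) × Fin m × Fin m × Fin m → R)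
    (t : ℕ) (a b c : Fin m) : R := if h : t < 2 * L then w' (⟨t, h⟩, a, b, c) else 0

theorem CYE_G (hn : 2 * (L + 1) * m + 1 ≤ n) (d : ℕ) : ∀ l : ℕ, l + d = L → ∀ a b : Fin m,
    CYE_F (CYE_w L m n hm w') (1 + (l * m + a)) (n - 1 - (l * m + b)) =
      tail (CYE_wt w') (2 * d) (2 * l) a b := by
  have hA : (L + 1) * m = L * m + m := Nat.succ_mul L m
  have hn2 : 2 * (L + 1) * m = 2 * ((L + 1) * m) := by ring
  rw [hn2, hA] at hn
  induction d with
  | zero =>
    intro l hl a b
    have hl' : l = L := by omega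
    subst hl'
    have ha := a.2
    have hb := b.2
    rw [CYE_base hm w' (by omega) (by omega) (by omega) (by omega) (by omega)]
    · rfl
    · have e : n - 1 - (n - 1 - (l * m + b)) = l * m + b := by omega
      rw [e, CYE_div l b b.2]
  | succ d ih =>
    intro l hl a b
    have ha := a.2
    have hb := b.2
    have hlL : l < L := by omega
    have hlm : (l + 1) * m ≤ L * m := Nat.mul_le_mul_right m hlL
    have hlm2 : (l + 1) * m = l * m + m := Nat.succ_mul l m
    have ei : 1 + (l * m + (a : ℕ)) - 1 = l * m + a := by omega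
    have ej : n - 1 - (n - 1 - (l * m + (b : ℕ))) = l * m + b := by omega
    rw [CYE_winF (m := m) (CYE_w L m n hm w') (by omega)
      (fun c => 1 + ((l + 1) * m + c.val)) (fun c c' h => Fin.ext (by simp only at h; omega))
      (fun c => ⟨by omega, by have := c.2; omega⟩)]
    · have et : tail (CYE_wt w') (2 * (d + 1)) (2 * l) a b =
          ∑ c : Fin m, CYE_wt w' (2 * l) a b c *
            ∑ e : Fin m, CYE_wt w' (2 * l + 1) b c e * tail (CYE_wt w') (2 * d) (2 * (l + 1)) c e :=
        rfl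
      rw [et]
      apply Finset.sum_congr rfl
      intro c _
      have hc := c.2
      have w1 : CYE_w L m n hm w' (1 + (l * m + a)) (1 + ((l + 1) * m + c))
          (n - 1 - (l * m + b)) = CYE_wt w' (2 * l) a b c := by
        rw [(CYE_w_even hm w' (by omega) (by omega) (by omega) (by omega) hlL a b ei ej
          (1 + ((l + 1) * m + c))).2 c (by omega)]
        unfold CYE_wt
        rw [dif_pos (by omega)]
      rw [w1, CYE_left hm w' (by omega) (by omega), mul_one]
      congr 1
      have ei2 : 1 + ((l + 1) * m + (c : ℕ)) - 1 = (l + 1) * m + c := by omega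
      rw [CYE_winF (m := m) (CYE_w L m n hm w') (by omega)
        (fun e => n - 1 - ((l + 1) * m + e.val))
        (fun e e' h => Fin.ext (by have := e.2; have := e'.2; simp only at h; omega))
        (fun e => ⟨by have := e.2; omega, by have := e.2; omega⟩)]
      · apply Finset.sum_congr rfl
        intro e _
        have he := e.2
        have w2 : CYE_w L m n hm w' (1 + ((l + 1) * m + c)) (n - 1 - ((l + 1) * m + e))
            (n - 1 - (l * m + b)) = CYE_wt w' (2 * l + 1) b c e := by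
          rw [(CYE_w_odd hm w' (by omega) (by omega) (by omega) (by omega) hlL c b ei2 ej
            (n - 1 - ((l + 1) * m + e))).2 e (by omega)]
          unfold CYE_wt
          rw [dif_pos (by omega)]
        rw [w2, CYE_right hm w' (i := n - 1 - ((l + 1) * m + e)) (by omega) (by omega), mul_one,
          ih (l + 1) (by omega) c e]
      · intro k hk1 hk2 hk3
        apply (CYE_w_odd hm w' (by omega) (by omega) (by omega) (by omega) hlL c b ei2 ej k).1
        intro hdiv
        have hk := Nat.div_add_mod (n - 1 - k) m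
        rw [hdiv, Nat.mul_comm] at hk
        exact hk3 ⟨(n - 1 - k) % m, Nat.mod_lt _ hm⟩ (by simp only; omega)
    · intro k hk1 hk2 hk3
      apply (CYE_w_even hm w' (by omega) (by omega) (by omega) (by omega) hlL a b ei ej k).1
      intro hdiv
      have hk := Nat.div_add_mod (k - 1) m
      rw [hdiv, Nat.mul_comm] at hk
      exact hk3 ⟨(k - 1) % m, Nat.mod_lt _ hm⟩ (by simp only; omega)

end

theorem tri_strip (L m n : ℕ) (hm : 1 ≤ m) (hn : 2 * (L + 1) * m + 1 ≤ n) :
    ∃ σ : Fin (n + 1) × Fin (n + 1) × Fin (n + 1) →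
        (Fin (2 * L) × Fin m × Fin m × Fin m) ⊕ Bool,
      ∀ (R : Type) [CommSemiring R] (w' : Fin (2 * L) × Fin m × Fin m × Fin m → R),
        triSum (n := n) (fun x => Sum.elim w' (fun b => if b then 1 else 0) (σ x)) =
          stripSum w' := by
  refine ⟨fun x => CYE_s L m n hm x.1.val x.2.1.val x.2.2.val, ?_⟩
  intro R _ w'
  have hA : (L + 1) * m = L * m + m := Nat.succ_mul L m
  have hn2 : 2 * (L + 1) * m = 2 * ((L + 1) * m) := by ring
  have hn' := hn
  rw [hn2, hA] at hn'
  have h1 : triSum (n := n) (fun x => Sum.elim w' (fun b => if b then 1 else 0)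
      (CYE_s L m n hm x.1.val x.2.1.val x.2.2.val)) = CYE_F (CYE_w L m n hm w') 0 n := by
    unfold triSum CYE_F
    rw [Nat.sub_zero]
    apply CYE_congr
    intro i k j _ hik hkj hj
    show CYE_w L m n hm w' (i % (n + 1)) (k % (n + 1)) (j % (n + 1)) = _
    rw [Nat.mod_eq_of_lt (by omega), Nat.mod_eq_of_lt (by omega), Nat.mod_eq_of_lt (by omega)]
  rw [h1]
  have h2 : stripSum w' = stripSum (N := 2 * L)
      (fun x => CYE_wt w' x.1.val x.2.1 x.2.2.1 x.2.2.2) := by
    congr 1
    funext x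
    unfold CYE_wt
    rw [dif_pos x.1.2]
  rw [h2, strip_tail]
  rw [CYE_winF (m := m) (CYE_w L m n hm w') (i := 0) (j := n) (by omega)
      (fun a => 1 + a.val) (fun c c' h => Fin.ext (by simp only at h; omega))
      (fun c => ⟨by omega, by have := c.2; omega⟩)]
  · apply Finset.sum_congr rfl
    intro a _
    have ha := a.2
    rw [CYE_w_root hm w' (by omega), if_pos (by omega), one_mul,
      CYE_left hm w' (by omega) (by omega), one_mul]
    rw [CYE_winF (m := m) (CYE_w L m n hm w') (by omega)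
      (fun b => n - 1 - b.val)
      (fun e e' h => Fin.ext (by have := e.2; have := e'.2; simp only at h; omega))
      (fun e => ⟨by have := e.2; omega, by have := e.2; omega⟩)]
    · apply Finset.sum_congr rfl
      intro b _
      have hb := b.2
      rw [CYE_w_n hm w' (by omega) (by omega) (by omega), if_pos (by omega), one_mul,
        CYE_right hm w' (i := n - 1 - b) (by omega) (by omega), mul_one]
      have h3 := CYE_G hm w' hn L 0 (by omega) a b
      simpa using h3
    · intro k hk1 hk2 hk3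
      rw [CYE_w_n hm w' (by omega) (by omega) (by omega), if_neg]
      intro hk
      exact hk3 ⟨n - 1 - k, by omega⟩ (by simp only; omega)
  · intro k hk1 hk2 hk3
    rw [CYE_w_root hm w' (by omega), if_neg]
    intro hk
    exact hk3 ⟨k - 1, by omega⟩ (by simp only; omega)

end Pool.Agent.H564R3.CY
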