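import Pool.Agent.H564R3.CY.Defs
import Pool.Agent.H564R3.PW.Process
import Pool.Agent.H564R3.PW.CardF
import Pool.Agent.H564R3.TS.HistP
import Pool.Agent.H564R3.SV.HistX

/-! Task A: the counting theorem for arbitrary exact-cover structures. -/

set_option autoImplicit false

namespace Pool.Agent.H564R3.CY

open Finset
open Pool.Agent.H564R3.PW (Instr runs exec syms)
open Pool.Agent.H564R3.TS

section

variable {R X E ρ : Type} [Zero R] [DecidableEq X] [Fintype E] [DecidableEq E]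
  [Fintype ρ] [DecidableEq ρ]

/-- the family of covered sets at time `t` -/
def CYA_fam (sup : X → Finset E) (z : ℕ → ρ → Finset X) (t : ℕ) : Finset (Finset E) :=
  (univ.image (fun i => (z t i).biUnion sup)).filter (fun a => a.Nonempty)

omit [Fintype E] [DecidableEq X] [DecidableEq ρ] in
theorem CYA_mem_fam {sup : X → Finset E} {z : ℕ → ρ → Finset X} {t : ℕ} {a : Finset E} :
    a ∈ CYA_fam sup z t ↔ a.Nonempty ∧ ∃ i, (z t i).biUnion sup = a := by
  simp [CYA_fam, and_comm]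

omit [Fintype E] [DecidableEq X] in
theorem CYA_ne {sup : X → Finset E} {Z : Finset X} (h : (Z.biUnion sup).Nonempty) :
    Z.Nonempty := by
  obtain ⟨e, he⟩ := h
  rw [mem_biUnion] at he
  obtain ⟨x, hx, _⟩ := he
  exact ⟨x, hx⟩

theorem CYA_hist {sup : X → Finset E} {T : Set (X → ℕ)} {p : List (Instr R X ρ)} {A : Finset X}
    (hA : Exact sup 1 univ A) {z : ℕ → ρ → Finset X}
    (h1 : ∀ t ≤ p.length, Config T A (D_st p t) (z t))
    (h2 : ∀ t < p.length, (∀ i, ∃ j, z t i ⊆ z (t + 1) j) ∧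
        ∀ i, (∃ j, z (t + 1) i = z t j) ∨ (∃ j l, z (t + 1) i = z t j ∪ z t l) ∨
          (z (t + 1) i).card ≤ 1) :
    PW.Hist p.length (CYA_fam sup z) where
  zero := by
    ext a
    rw [CYA_mem_fam]
    simp only [notMem_empty, iff_false, not_and, not_exists]
    intro ha i hi
    have := (h1 0 (Nat.zero_le _)).mem i (CYA_ne (by rw [hi]; exact ha))
    rw [D_st_zero] at this
    exact this
  disj := by
    intro t ht a ha b hb hab
    rw [CYA_mem_fam] at ha hb
    obtain ⟨_, i, rfl⟩ := ha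
    obtain ⟨_, j, rfl⟩ := hb
    have hij : i ≠ j := fun e => hab (by rw [e])
    have hc := h1 t ht
    rw [Finset.disjoint_left]
    intro e he he'
    rw [mem_biUnion] at he he'
    obtain ⟨x, hx, hex⟩ := he
    obtain ⟨y, hy, hey⟩ := he'
    have hxy : x ≠ y := by
      rintro rfl
      exact Finset.disjoint_left.1 (hc.disj i j hij) hx hy
    exact Finset.disjoint_left.1 (hA.disj x (hc.sub i hx) y (hc.sub j hy) hxy) hex hey
  up := by
    intro t ht a ha
    rw [CYA_mem_fam] at ha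
    obtain ⟨hne, i, rfl⟩ := ha
    obtain ⟨j, hj⟩ := (h2 t ht).1 i
    have hs : (z t i).biUnion sup ⊆ (z (t + 1) j).biUnion sup := biUnion_subset_biUnion_of_subset_left _ hj
    exact ⟨_, CYA_mem_fam.2 ⟨hne.mono hs, j, rfl⟩, hs⟩
  down := by
    intro t ht b hb
    rw [CYA_mem_fam] at hb
    obtain ⟨hne, i, rfl⟩ := hb
    rcases (h2 t ht).2 i with ⟨j, hj⟩ | ⟨j, l, e⟩ | h
    · left
      rw [hj] at hne ⊢
      exact CYA_mem_fam.2 ⟨hne, j, rfl⟩
    · by_cases hj : ((z t j).biUnion sup).Nonempty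
      · by_cases hl : ((z t l).biUnion sup).Nonempty
        · right; left
          refine ⟨_, CYA_mem_fam.2 ⟨hj, j, rfl⟩, _, CYA_mem_fam.2 ⟨hl, l, rfl⟩, ?_⟩
          rw [e, Finset.union_biUnion]
        · left
          rw [not_nonempty_iff_eq_empty] at hl
          have e1 : (z (t + 1) i).biUnion sup = (z t j).biUnion sup := by
            rw [e, Finset.union_biUnion, hl, union_empty]
          rw [e1]
          exact CYA_mem_fam.2 ⟨hj, j, rfl⟩
      · left
        rw [not_nonempty_iff_eq_empty] at hj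
        have e1 : (z (t + 1) i).biUnion sup = (z t l).biUnion sup := by
          rw [e, Finset.union_biUnion, hj, empty_union]
        rw [e1] at hne ⊢
        exact CYA_mem_fam.2 ⟨hne, l, rfl⟩
    · right; right
      refine card_biUnion_le.trans ?_
      refine (sum_le_card_nsmul _ _ 1 ?_).trans (by simpa using h)
      intro x hx
      exact (hA.card x ((h1 (t + 1) ht).sub i hx)).le

/-- what one choice yields -/
theorem CYA_code {sup : X → Finset E} (p : List (Instr R X ρ)) (o : ρ)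
    (hT : Cov sup (syms p o)) (A : Finset X) (hA : Exact sup 1 univ A)
    (hmem : ind A ∈ syms p o) (D M H r : ℕ) (hD : 1 ≤ D) (hM : 1 ≤ M)
    (hlen : p.length ≤ M ^ H) (hn : (2 * D + 1) * 8 ^ H * 64 ^ r ≤ Fintype.card E) :
    ∃ (z : ℕ → ρ → Finset X) (x : List ℕ) (hx : x.length = r)
      (g : Fin r → ρ) (L : List (Finset E)) (hL : L.length = r),
      x ∈ PW.F M H r 0 ∧ (∀ t ≤ p.length, Config (syms p o) A (D_st p t) (z t)) ∧
      (∀ j : Fin r, x[j] ≤ p.length ∧ (z x[j] (g j)).biUnion sup = L[j] ∧ (L[j]).Nonempty) ∧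
      PW.Priv D L ∧ D ≤ (univ \ PW.un L).card := by
  classical
  obtain ⟨z, h1, h2, h3⟩ := D_exists le_rfl p o hT A hA hmem
  have hH := CYA_hist hA h1 h2
  have hfin : (z p.length o).biUnion sup = univ := by
    rw [h3]
    ext e
    simp only [mem_biUnion, mem_univ, iff_true]
    exact hA.cover e (mem_univ e)
  have hE : (univ : Finset E).Nonempty := by
    rw [← card_pos, card_univ]
    refine lt_of_lt_of_le ?_ hn
    positivity
  have hp : 0 < p.length := by
    rcases Nat.eq_zero_or_pos p.length with h0 | h0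
    · exfalso
      have ha := (h1 p.length le_rfl).mem o (CYA_ne (by rw [hfin]; exact hE))
      rw [h0, D_st_zero] at ha
      exact ha
    · exact h0
  have hU : PW.U D (CYA_fam sup z) 0 = ∅ := by
    rw [PW.U, hH.zero]
    simp
  obtain ⟨L, hL1, hL2, hL3, hL4⟩ := PW.process hH M D hM hD H r 0 p.length
    univ (CYA_mem_fam.2 ⟨hE, o, hfin⟩) hp (by simpa using hlen) le_rfl (by
      rw [hU, sdiff_empty, card_univ]
      exact hn)
  have hlen' : (L.map Prod.fst).length = r := PW.length_F hL1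
  have hlen'' : L.length = r := by simpa using hlen'
  have hreg : ∀ j : Fin r, ∃ i : ρ, (z (L[j]).1 i).biUnion sup = (L[j]).2 ∧
      ((L[j]).2).Nonempty ∧ (L[j]).1 ≤ p.length := by
    intro j
    have hm : L[j] ∈ L := List.getElem_mem _
    obtain ⟨ha, hb, _⟩ := hL2 _ hm
    rw [CYA_mem_fam] at hb
    obtain ⟨hb1, i, hb2⟩ := hb
    exact ⟨i, hb2, hb1, ha⟩
  choose g hg using hreg
  refine ⟨z, L.map Prod.fst, hlen', g, L.map Prod.snd, by simpa using hlen'', hL1, h1, ?_, hL3,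
    hL4⟩
  intro j
  obtain ⟨ha, hb, hc⟩ := hg j
  simp only [Fin.getElem_fin, List.getElem_map] at ha hb hc ⊢
  exact ⟨hc, ha, hb⟩

end

theorem gen_count {R X E V ρ : Type} [Zero R] [DecidableEq X] [Fintype E] [DecidableEq E]
    [Fintype V] [DecidableEq V] [Fintype ρ] [DecidableEq ρ] {m : ℕ} (hm : 1 ≤ m)
    {sup : X → Finset E} (p : List (Instr R X ρ)) (o : ρ)
    (hT : Cov sup (syms p o)) (A : (V → Fin m) → Finset X)
    (hA : ∀ φ, Exact sup 1 univ (A φ)) (hmem : ∀ φ, ind (A φ) ∈ syms p o)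
    (Bdr : Finset E → V → Prop)
    (htype : ∀ φ ψ : V → Fin m, ∀ Y Z : Finset X, Y ⊆ A φ → Z ⊆ A ψ →
      Y.biUnion sup = Z.biUnion sup → ind (A φ \ Y) + ind Z ∈ syms p o →
        ∀ v, Bdr (Y.biUnion sup) v → φ v = ψ v)
    (D M H k r : ℕ) (hD : 1 ≤ D) (hM : 1 ≤ M) (hr : 1 ≤ r)
    (hiso : ∀ L : List (Finset E), L.length = r → PW.Priv D L → D ≤ (univ \ PW.un L).card →
      ∀ Xs : Finset V, (∀ Z ∈ L, ∀ v, Bdr Z v → v ∈ Xs) → k * r ≤ Xs.card)
    (hlen : p.length ≤ M ^ H) (hn : (2 * D + 1) * 8 ^ H * 64 ^ r ≤ Fintype.card E) :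
    (m ^ k) ^ r ≤ (4 * M) ^ (H + r) * Fintype.card ρ ^ r := by
  classical
  choose z x hx g L hL hF hC hz hP hE using
    fun φ => CYA_code p o hT (A φ) (hA φ) (hmem φ) D M H r hD hM hlen hn
  -- the boundary nodes
  let Xs : (V → Fin m) → Finset V := fun φ => univ.filter (fun v => ∃ Z ∈ L φ, Bdr Z v)
  have hXs : ∀ φ, k * r ≤ (Xs φ).card := by
    intro φ
    refine hiso (L φ) (hL φ) (hP φ) (hE φ) (Xs φ) ?_
    intro Z hZ v hv
    simp only [Xs, mem_filter, mem_univ, true_and]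
    exact ⟨Z, hZ, hv⟩
  -- equal codes
  have hcode : ∀ φ ψ, x φ = x ψ → g φ = g ψ → ∀ v ∈ Xs φ, φ v = ψ v := by
    intro φ ψ hxe hge
    have hj : ∀ j : Fin r,
        ∀ v, Bdr ((L φ)[j]'(by rw [hL φ]; exact j.2)) v → φ v = ψ v := by
      intro j
      obtain ⟨a1, a2, a3⟩ := hz φ j
      obtain ⟨b1, b2, b3⟩ := hz ψ j
      have ht : (x φ)[j]'(by rw [hx φ]; exact j.2) = (x ψ)[j]'(by rw [hx ψ]; exact j.2) := by
        simp only [hxe]
      have c1 := hC φ _ a1
      have c2 := hC ψ _ b1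
      rw [← ht] at c2 b2
      rw [← hge] at b2
      have n1 : (z φ ((x φ)[j]'(by rw [hx φ]; exact j.2)) (g φ j)).Nonempty :=
        CYA_ne (sup := sup) (by rw [a2]; exact a3)
      have n2 : (z ψ ((x φ)[j]'(by rw [hx φ]; exact j.2)) (g φ j)).Nonempty :=
        CYA_ne (sup := sup) (by rw [b2]; exact b3)
      have e1 := config_unique hT (hA φ) (hA ψ) c1 c2 (g φ j) n1 n2
      have e2 := SV.X_ctx c1 n1 (c2.mem _ n2)
      have e3 := htype φ ψ _ _ (c1.sub (g φ j)) (c2.sub (g φ j)) e1 e2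
      rw [a2] at e3
      exact e3
    intro v hv
    simp only [Xs, mem_filter, mem_univ, true_and] at hv
    obtain ⟨Z, hZ, hv⟩ := hv
    obtain ⟨i, hi, rfl⟩ := List.getElem_of_mem hZ
    exact hj ⟨i, by rw [← hL φ]; exact hi⟩ v hv
  -- counting
  have hfib : ∀ c ∈ (PW.F M H r 0) ×ˢ (univ : Finset (Fin r → ρ)),
      ((univ : Finset (V → Fin m)).filter (fun φ => (x φ, g φ) = c)).card ≤
        m ^ (Fintype.card V - k * r) := by
    intro c _
    by_cases hne : ∃ φ₀, (x φ₀, g φ₀) = c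
    · obtain ⟨φ₀, hφ₀⟩ := hne
      have hcard : Fintype.card (↥(Xs φ₀)ᶜ → Fin m) ≤ m ^ (Fintype.card V - k * r) := by
        rw [Fintype.card_fun, Fintype.card_fin, Fintype.card_coe, card_compl]
        apply Nat.pow_le_pow_right hm
        exact Nat.sub_le_sub_left (hXs φ₀) _
      refine le_trans ?_ hcard
      rw [← Fintype.card_coe]
      apply Fintype.card_le_of_injective (fun ψ => fun v : ↥(Xs φ₀)ᶜ => ψ.1 v.1)
      intro ψ ψ' h
      apply Subtype.ext
      funext v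
      have e1 := ψ.2
      have e2 := ψ'.2
      rw [mem_filter] at e1 e2
      have f1 : (x φ₀, g φ₀) = (x ψ.1, g ψ.1) := by rw [hφ₀, e1.2]
      have f2 : (x φ₀, g φ₀) = (x ψ'.1, g ψ'.1) := by rw [hφ₀, e2.2]
      rw [Prod.mk.injEq] at f1 f2
      by_cases hv : v ∈ Xs φ₀
      · rw [← hcode φ₀ ψ.1 f1.1 f1.2 v hv, ← hcode φ₀ ψ'.1 f2.1 f2.2 v hv]
      · exact congrFun h ⟨v, by rw [mem_compl]; exact hv⟩
    · rw [filter_eq_empty_iff.2 (fun φ _ h => hne ⟨φ, h⟩), card_empty]
      exact Nat.zero_le _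
  have htot : (univ : Finset (V → Fin m)).card ≤
      m ^ (Fintype.card V - k * r) * ((PW.F M H r 0) ×ˢ (univ : Finset (Fin r → ρ))).card :=
    card_le_mul_card_image_of_maps_to (f := fun φ => (x φ, g φ)) (fun φ _ => by
      rw [mem_product]; exact ⟨hF φ, mem_univ _⟩) _ hfib
  have hφ : ∃ φ : V → Fin m, True := ⟨fun _ => ⟨0, hm⟩, trivial⟩
  obtain ⟨φ₁, -⟩ := hφ
  have hkn : k * r ≤ Fintype.card V := (hXs φ₁).trans (card_le_univ _)
  rw [card_univ, Fintype.card_fun, Fintype.card_fin, card_product, card_univ, Fintype.card_fun,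
    Fintype.card_fin] at htot
  have hpos : 0 < m ^ (Fintype.card V - k * r) := Nat.pow_pos hm
  have h5 : m ^ (Fintype.card V) = m ^ (Fintype.card V - k * r) * m ^ (k * r) := by
    rw [← pow_add, Nat.sub_add_cancel hkn]
  rw [h5] at htot
  have h6 := Nat.le_of_mul_le_mul_left htot hpos
  rw [← pow_mul]
  exact h6.trans (Nat.mul_le_mul_right _ (PW.card_F M H r 0 hM))

end Pool.Agent.H564R3.CY
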