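import Pool.Agent.H564R3.CY.Defs
import Pool.Agent.H564R3.PW.Prog

/-! The linear case: diagonal by diagonal with `n + 3` registers. -/

set_option autoImplicit false

namespace Pool.Agent.H564R3.CY

open Finset
open Pool.Agent.H564R3.PW (Instr runs exec syms L1_runs_append L1_runs_cons L1_runs_nil
  L1_len_flatMap)
open Pool.Agent.H564R3.TS

section CYI

variable {R : Type} [CommSemiring R]

/-- the registers -/
abbrev CYI_reg (n : ℕ) : Type := Fin (n + 1) ⊕ Fin 2

/-- the register of the intervals from `i` -/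
def CYI_cell (n i : ℕ) : CYI_reg n := Sum.inl (Fin.ofNat (n + 1) i)

theorem CYI_cell_inj {n i i' : ℕ} (hi : i ≤ n) (hi' : i' ≤ n)
    (h : CYI_cell n i = CYI_cell n i') : i = i' := by
  unfold CYI_cell at h
  have h3 := congrArg Fin.val (Sum.inl.inj h)
  simp only [Fin.ofNat_eq_cast, Fin.val_natCast] at h3
  rw [Nat.mod_eq_of_lt (by omega), Nat.mod_eq_of_lt (by omega)] at h3
  exact h3

/-- the variable -/
def CYI_x (n i k j : ℕ) : Fin (n + 1) × Fin (n + 1) × Fin (n + 1) :=
  (Fin.ofNat (n + 1) i, Fin.ofNat (n + 1) k, Fin.ofNat (n + 1) j)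

/-- the weights as a function on natural numbers -/
def CYI_W {n : ℕ} (w : Fin (n + 1) × Fin (n + 1) × Fin (n + 1) → R) (i k j : ℕ) : R :=
  w (CYI_x n i k j)

variable (R) in
/-- the program of a cell -/
def CYI_blk (n : ℕ) : ℕ → ℕ →
    List (Instr R (Fin (n + 1) × Fin (n + 1) × Fin (n + 1)) (CYI_reg n))
  | 0, i => [Instr.const (CYI_cell n i) 1]
  | 1, _ => []
  | 2, i => [Instr.load (CYI_cell n i) (CYI_x n i (i + 1) (i + 2))]
  | l + 3, i =>
    [Instr.load (Sum.inr 0) (CYI_x n i (i + 1) (i + l + 3)),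
     Instr.mul (Sum.inr 0) (Sum.inr 0) (CYI_cell n (i + 1)),
     Instr.load (Sum.inr 1) (CYI_x n i (i + l + 2) (i + l + 3)),
     Instr.mul (CYI_cell n i) (Sum.inr 1) (CYI_cell n i),
     Instr.add (CYI_cell n i) (CYI_cell n i) (Sum.inr 0)]

variable (R) in
/-- the program of a length -/
def CYI_stage (n l : ℕ) : List (Instr R (Fin (n + 1) × Fin (n + 1) × Fin (n + 1)) (CYI_reg n)) :=
  (List.range (n + 1 - l)).flatMap (CYI_blk R n l)

variable (R) in
/-- the program -/
def CYI_prog (n L : ℕ) : List (Instr R (Fin (n + 1) × Fin (n + 1) × Fin (n + 1)) (CYI_reg n)) :=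
  (List.range L).flatMap (CYI_stage R n)

theorem CYI_br2 (W : ℕ → ℕ → ℕ → R) (i : ℕ) : bracket W i 2 = W i (i + 1) (i + 2) := by
  rw [bracket]
  simp [bracket]

theorem CYI_br3 (W : ℕ → ℕ → ℕ → R) (i l : ℕ)
    (h0 : ∀ a, a < l → W i (i + a + 2) (i + l + 3) = 0) : bracket W i (l + 3) =
      W i (i + l + 2) (i + l + 3) * bracket W i (l + 2) +
        W i (i + 1) (i + l + 3) * bracket W (i + 1) (l + 2) := by
  have h1 : bracket W i (l + 3) = ∑ a ∈ range (l + 2), W i (i + a + 1) (i + (l + 1) + 2) *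
      bracket W i (a + 1) * bracket W (i + a + 1) (l + 1 + 1 - a) := by
    rw [bracket, ← Fin.sum_univ_eq_sum_range (fun a => W i (i + a + 1) (i + (l + 1) + 2) *
      bracket W i (a + 1) * bracket W (i + a + 1) (l + 1 + 1 - a))]
  rw [h1, Finset.sum_range_succ, Finset.sum_range_succ', Finset.sum_eq_zero, zero_add, add_comm]
  · have e1 : i + (l + 1) + 1 = i + l + 2 := by ring
    have e2 : i + (l + 1) + 2 = i + l + 3 := by ring
    have e3 : l + 1 + 1 - (l + 1) = 1 := by omega
    have b1 : ∀ i, bracket W i 1 = 1 := fun i => by rw [bracket]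
    rw [e1, e2, e3, b1, mul_one]
    simp only [add_zero, zero_add, b1, mul_one, Nat.sub_zero]
  · intro a ha
    rw [Finset.mem_range] at ha
    have e1 : i + (a + 1) + 1 = i + a + 2 := by ring
    have e2 : i + (l + 1) + 2 = i + l + 3 := by ring
    rw [e1, e2, h0 a ha, zero_mul, zero_mul]

/-- the invariant -/
def CYI_Inv {n : ℕ} (w : Fin (n + 1) × Fin (n + 1) × Fin (n + 1) → R) (L I : ℕ)
    (v : CYI_reg n → R) : Prop :=
  (∀ i, i < I → i + L ≤ n → v (CYI_cell n i) = bracket (CYI_W w) i L) ∧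
  ∀ i, I ≤ i → i + L ≤ n + 1 → 1 ≤ L → v (CYI_cell n i) = bracket (CYI_W w) i (L - 1)

/-- only the cell `I` is changed -/
theorem CYI_upd {n : ℕ} (w : Fin (n + 1) × Fin (n + 1) × Fin (n + 1) → R) (L I : ℕ)
    (hI : I + L ≤ n) (v v' : CYI_reg n → R) (hv : CYI_Inv w L I v)
    (h1 : v' (CYI_cell n I) = bracket (CYI_W w) I L)
    (h2 : ∀ i, i ≤ n → i ≠ I → v' (CYI_cell n i) = v (CYI_cell n i)) :
    CYI_Inv w L (I + 1) v' := by
  obtain ⟨a1, a2⟩ := hv
  refine ⟨fun i hi hil => ?_, fun i hi hil hL => ?_⟩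
  · by_cases h : i = I
    · rw [h]; exact h1
    · rw [h2 i (by omega) h]
      exact a1 i (by omega) hil
  · rw [h2 i (by omega) (by omega)]
    exact a2 i (by omega) hil hL

theorem CYI_blk_run {n : ℕ} (w : Fin (n + 1) × Fin (n + 1) × Fin (n + 1) → R)
    (hw : ∀ i k j : Fin (n + 1), k.val ≠ i.val + 1 → k.val + 1 ≠ j.val → w (i, k, j) = 0)
    (L I : ℕ) (hI : I + L ≤ n) (v : CYI_reg n → R) (hv : CYI_Inv w L I v) :
    CYI_Inv w L (I + 1) (runs w (CYI_blk R n L I) v) := by
  match L, hI, hv with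
  | 0, hI, hv =>
    refine CYI_upd w 0 I hI v _ hv ?_ fun i hi hne => ?_
    · unfold CYI_blk
      rw [L1_runs_cons, L1_runs_nil, bracket]
      simp only [Instr.run, Function.update_self]
    · unfold CYI_blk
      rw [L1_runs_cons, L1_runs_nil]
      simp only [Instr.run]
      exact Function.update_of_ne (fun h => hne (CYI_cell_inj hi (by omega) h)) _ _
  | 1, hI, hv =>
    refine CYI_upd w 1 I hI v _ hv ?_ fun i hi hne => rfl
    have h1 := hv.2 I le_rfl (by omega) le_rfl
    show v (CYI_cell n I) = _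
    rw [h1, bracket, bracket]
  | 2, hI, hv =>
    refine CYI_upd w 2 I hI v _ hv ?_ fun i hi hne => ?_
    · unfold CYI_blk
      rw [L1_runs_cons, L1_runs_nil, CYI_br2]
      simp only [Instr.run, Function.update_self]
      rfl
    · unfold CYI_blk
      rw [L1_runs_cons, L1_runs_nil]
      simp only [Instr.run]
      exact Function.update_of_ne (fun h => hne (CYI_cell_inj hi (by omega) h)) _ _
  | l + 3, hI, hv =>
    have c0 : ∀ i, CYI_cell n i ≠ Sum.inr 0 := fun i => by simp [CYI_cell]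
    have c1 : ∀ i, CYI_cell n i ≠ Sum.inr 1 := fun i => by simp [CYI_cell]
    have c2 : (Sum.inr 0 : CYI_reg n) ≠ Sum.inr 1 := by simp
    have c3 : (Sum.inr 0 : CYI_reg n) ≠ CYI_cell n I := (c0 I).symm
    have h1 : v (CYI_cell n I) = bracket (CYI_W w) I (l + 2) :=
      hv.2 I le_rfl (by omega) (by omega)
    have h2 : v (CYI_cell n (I + 1)) = bracket (CYI_W w) (I + 1) (l + 2) :=
      hv.2 (I + 1) (by omega) (by omega) (by omega)
    have h0 : ∀ a, a < l → CYI_W w I (I + a + 2) (I + l + 3) = 0 := by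
      intro a ha
      refine hw _ _ _ ?_ ?_
      · simp only [Fin.ofNat_eq_cast, Fin.val_natCast]
        rw [Nat.mod_eq_of_lt (by omega), Nat.mod_eq_of_lt (by omega)]
        omega
      · simp only [Fin.ofNat_eq_cast, Fin.val_natCast]
        rw [Nat.mod_eq_of_lt (by omega), Nat.mod_eq_of_lt (by omega)]
        omega
    refine CYI_upd w (l + 3) I hI v _ hv ?_ fun i hi hne => ?_
    · rw [CYI_br3 _ I l h0, ← h1, ← h2]
      unfold CYI_blk
      rw [L1_runs_cons, L1_runs_cons, L1_runs_cons, L1_runs_cons, L1_runs_cons, L1_runs_nil]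
      simp only [Instr.run, Function.update_self, Function.update_of_ne c3,
        Function.update_of_ne c2, Function.update_of_ne (c0 _), Function.update_of_ne (c1 _)]
      rfl
    · have c4 : CYI_cell n i ≠ CYI_cell n I := fun h => hne (CYI_cell_inj hi (by omega) h)
      unfold CYI_blk
      rw [L1_runs_cons, L1_runs_cons, L1_runs_cons, L1_runs_cons, L1_runs_cons, L1_runs_nil]
      simp only [Instr.run, Function.update_of_ne c4, Function.update_of_ne (c0 _),
        Function.update_of_ne (c1 _)]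

theorem CYI_stage_run {n : ℕ} (w : Fin (n + 1) × Fin (n + 1) × Fin (n + 1) → R)
    (hw : ∀ i k j : Fin (n + 1), k.val ≠ i.val + 1 → k.val + 1 ≠ j.val → w (i, k, j) = 0) (L : ℕ)
    (v : CYI_reg n → R) (hv : CYI_Inv w L 0 v) : ∀ I ≤ n + 1 - L,
    CYI_Inv w L I (runs w ((List.range I).flatMap (CYI_blk R n L)) v) := by
  intro I
  induction I with
  | zero => intro _; exact hv
  | succ I ih =>
    intro hI
    rw [List.range_succ, List.flatMap_append, L1_runs_append, List.flatMap_singleton]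
    exact CYI_blk_run w hw L I (by omega) _ (ih (by omega))

theorem CYI_prog_run {n : ℕ} (w : Fin (n + 1) × Fin (n + 1) × Fin (n + 1) → R)
    (hw : ∀ i k j : Fin (n + 1), k.val ≠ i.val + 1 → k.val + 1 ≠ j.val → w (i, k, j) = 0) :
    ∀ L : ℕ, CYI_Inv w L 0 (exec w (CYI_prog R n L)) := by
  intro L
  induction L with
  | zero =>
    exact ⟨fun i hi => absurd hi (Nat.not_lt_zero i), fun i _ _ h => absurd h (by omega)⟩
  | succ L ih =>
    have h1 : exec w (CYI_prog R n (L + 1)) =
        runs w (CYI_stage R n L) (exec w (CYI_prog R n L)) := by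
      unfold exec CYI_prog
      rw [List.range_succ, List.flatMap_append, L1_runs_append, List.flatMap_singleton]
    rw [h1]
    have h2 := CYI_stage_run w hw L (exec w (CYI_prog R n L)) ih (n + 1 - L) le_rfl
    refine ⟨fun i hi => absurd hi (Nat.not_lt_zero i), fun i _ hil _ => ?_⟩
    exact h2.1 i (by omega) (by omega)

theorem CYI_blk_length (n l i : ℕ) : (CYI_blk R n l i).length ≤ 5 := by
  match l with
  | 0 => simp [CYI_blk]
  | 1 => simp [CYI_blk]
  | 2 => simp [CYI_blk]
  | l + 3 => simp [CYI_blk]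

theorem CYI_stage_length (n l : ℕ) : (CYI_stage R n l).length ≤ 5 * (n + 1) := by
  unfold CYI_stage
  refine (L1_len_flatMap (CYI_blk R n l) (List.range (n + 1 - l)) 5
    (fun i => CYI_blk_length n l i)).trans ?_
  rw [List.length_range]
  omega

end CYI

theorem linear_upper {R : Type} [CommSemiring R] (n : ℕ) :
    ∃ (ρ : Type) (_ : Fintype ρ) (_ : DecidableEq ρ)
      (p : List (Instr R (Fin (n + 1) × Fin (n + 1) × Fin (n + 1)) ρ)) (o : ρ),
      Fintype.card ρ = n + 3 ∧ p.length ≤ 5 * (n + 1) ^ 2 ∧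
      ∀ w : Fin (n + 1) × Fin (n + 1) × Fin (n + 1) → R,
        (∀ i k j : Fin (n + 1), k.val ≠ i.val + 1 → k.val + 1 ≠ j.val → w (i, k, j) = 0) →
        exec w p o = triSum w := by
  refine ⟨CYI_reg n, inferInstance, inferInstance, CYI_prog R n (n + 1), CYI_cell n 0, ?_, ?_, ?_⟩
  · rw [Fintype.card_sum, Fintype.card_fin, Fintype.card_fin]
  · refine (L1_len_flatMap (CYI_stage R n) (List.range (n + 1)) (5 * (n + 1))
      (fun l => CYI_stage_length n l)).trans ?_
    rw [List.length_range]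
    exact le_of_eq (by ring)
  · intro w hw
    exact (CYI_prog_run w hw (n + 1)).2 0 le_rfl (by omega) (by omega)

end Pool.Agent.H564R3.CY
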