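import Mathlib
import Pool.Agent.H564R3.CY.Defs

set_option autoImplicit false

namespace Pool.Agent.H564R3.CY

open Finset

theorem CYH_aux {n K m r c S T : ℕ} {ε : ℝ} (hn1 : 1 ≤ n) (hr : 1 ≤ r)
    (hrc : 4 * (c : ℝ) ≤ ε * r) (hm : n ≤ 2 * K * m)
    (hK : 256 * (K : ℝ) ^ 2 ≤ (n : ℝ) ^ (ε / 2))
    (h : (m ^ 2) ^ r ≤ (64 * S) ^ r * T ^ 2) (hT : (T : ℝ) ≤ (n : ℝ) ^ c) :
    (n : ℝ) ^ (2 - ε) ≤ S := by
  have hn : (1 : ℝ) ≤ n := by exact_mod_cast hn1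
  have hn0 : (0 : ℝ) < n := by linarith
  have hR : (((m : ℝ) ^ 2)) ^ r ≤ (64 * (S : ℝ)) ^ r * (T : ℝ) ^ 2 := by exact_mod_cast h
  have hS0 : (0 : ℝ) ≤ S := Nat.cast_nonneg S
  have hT2 : (T : ℝ) ^ 2 ≤ ((n : ℝ) ^ (ε / 2)) ^ r := by
    have h1 : (T : ℝ) ^ 2 ≤ ((n : ℝ) ^ c) ^ 2 := pow_le_pow_left₀ (Nat.cast_nonneg T) hT 2
    refine h1.trans ?_
    rw [← Real.rpow_natCast ((n : ℝ) ^ (ε / 2)) r, ← Real.rpow_mul hn0.le, ← pow_mul,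
      ← Real.rpow_natCast (n : ℝ) (c * 2)]
    apply Real.rpow_le_rpow_of_exponent_le hn
    push_cast
    linarith
  have h2 : ((m : ℝ) ^ 2) ^ r ≤ (64 * (S : ℝ) * (n : ℝ) ^ (ε / 2)) ^ r := by
    rw [mul_pow (64 * (S : ℝ))]
    exact hR.trans (mul_le_mul_of_nonneg_left hT2 (by positivity))
  have h3 : (m : ℝ) ^ 2 ≤ 64 * (S : ℝ) * (n : ℝ) ^ (ε / 2) :=
    le_of_pow_le_pow_left₀ (by omega) (by positivity) h2
  have hm' : (n : ℝ) ≤ 2 * K * m := by exact_mod_cast hm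
  have h4 : (n : ℝ) ^ 2 ≤ (2 * K * m) ^ 2 := pow_le_pow_left₀ hn0.le hm' 2
  have h5 : (n : ℝ) ^ 2 ≤ (S : ℝ) * (n : ℝ) ^ ε := by
    have h6 : (n : ℝ) ^ ε = (n : ℝ) ^ (ε / 2) * (n : ℝ) ^ (ε / 2) := by
      rw [← Real.rpow_add hn0]; congr 1; ring
    calc (n : ℝ) ^ 2 ≤ (2 * K * m) ^ 2 := h4
      _ = 4 * (K : ℝ) ^ 2 * (m : ℝ) ^ 2 := by ring
      _ ≤ 4 * (K : ℝ) ^ 2 * (64 * (S : ℝ) * (n : ℝ) ^ (ε / 2)) :=
          mul_le_mul_of_nonneg_left h3 (by positivity)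
      _ = (256 * (K : ℝ) ^ 2) * ((S : ℝ) * (n : ℝ) ^ (ε / 2)) := by ring
      _ ≤ (n : ℝ) ^ (ε / 2) * ((S : ℝ) * (n : ℝ) ^ (ε / 2)) :=
          mul_le_mul_of_nonneg_right hK (by positivity)
      _ = (S : ℝ) * (n : ℝ) ^ ε := by rw [h6]; ring
  have h7 : (n : ℝ) ^ (2 - ε) = (n : ℝ) ^ 2 / (n : ℝ) ^ ε := by
    rw [Real.rpow_sub hn0]
    norm_num
  rw [h7, div_le_iff₀ (Real.rpow_pos_of_pos hn0 _)]
  exact h5

theorem tri_num (c : ℕ) (ε : ℝ) (hε : 0 < ε) : ∃ n₀ : ℕ, ∀ n ≥ n₀, ∀ S T : ℕ,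
    (∀ L m r : ℕ, 1 ≤ m → 1 ≤ r → 2 * (L + 1) * m + 1 ≤ n → (8 * r + 1) * 512 ^ r ≤ 2 * L →
      (m ^ 2) ^ r ≤ (64 * S) ^ r * T ^ 2) →
    (T : ℝ) ≤ (n : ℝ) ^ c → (n : ℝ) ^ (2 - ε) ≤ S := by
  obtain ⟨r, hr⟩ : ∃ r : ℕ, 4 * (c : ℝ) / ε + 1 ≤ r := exists_nat_ge _
  have hr1 : 1 ≤ r := by
    have h1 : (0 : ℝ) ≤ 4 * (c : ℝ) / ε := by positivity
    have h2 : (1 : ℝ) ≤ r := by linarith
    exact_mod_cast h2
  have hrc : 4 * (c : ℝ) ≤ ε * r := by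
    have h1 : 4 * (c : ℝ) / ε ≤ r := by linarith
    rw [div_le_iff₀ hε] at h1
    linarith
  obtain ⟨L, hL⟩ : ∃ L : ℕ, L = (8 * r + 1) * 512 ^ r := ⟨_, rfl⟩
  obtain ⟨K, hK⟩ : ∃ K : ℕ, K = 2 * (L + 1) := ⟨_, rfl⟩
  have hKpos : 0 < K := by omega
  have htend : Filter.Tendsto (fun n : ℕ => (n : ℝ) ^ (ε / 2)) Filter.atTop Filter.atTop :=
    (tendsto_rpow_atTop (by positivity)).comp tendsto_natCast_atTop_atTop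
  obtain ⟨n₁, hn₁⟩ := Filter.eventually_atTop.mp
    (htend.eventually (Filter.eventually_ge_atTop (256 * (K : ℝ) ^ 2)))
  refine ⟨max n₁ (2 * K + 1), fun n hn S T hST hT => ?_⟩
  have hnn₁ : n₁ ≤ n := le_trans (le_max_left _ _) hn
  have hnK : 2 * K + 1 ≤ n := le_trans (le_max_right _ _) hn
  have hdm := Nat.div_add_mod (n - 1) K
  have hmod := Nat.mod_lt (n - 1) hKpos
  set m := (n - 1) / K with hm
  have hm1 : 1 ≤ m := by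
    rw [hm]
    exact (Nat.one_le_div_iff hKpos).mpr (by omega)
  have hmK : K ≤ K * m := Nat.le_mul_of_pos_right K (by omega)
  have h1 : n ≤ 2 * K * m := by
    have : 2 * K * m = K * m + K * m := by ring
    rw [this]
    omega
  have h2 : 2 * (L + 1) * m + 1 ≤ n := by
    rw [← hK]
    omega
  have h3 : (8 * r + 1) * 512 ^ r ≤ 2 * L := by omega
  exact CYH_aux (by omega) hr1 hrc h1 (hn₁ n hnn₁) (hST L m r hm1 hr1 h2 h3) hT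

end Pool.Agent.H564R3.CY
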