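import Pool.Agent.H564R3.CY.Defs

/-! Task B: isoperimetry of strips. -/

set_option autoImplicit false

namespace Pool.Agent.H564R3.CY

open Finset

/-- the colour of `t`: the position, counted from the end, of the last set containing `t` -/
def CYB_lam {N : ℕ} : List (Finset (Fin N)) → Fin N → ℕ
  | [], _ => 0
  | Z :: Zs, t => if t ∈ PW.un Zs then CYB_lam Zs t else if t ∈ Z then Zs.length + 1 else 0

theorem CYB_mem_un {N : ℕ} (L : List (Finset (Fin N))) (x : Fin N) :
    x ∈ PW.un L ↔ ∃ Z ∈ L, x ∈ Z := by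
  induction L with
  | nil => simp [PW.un]
  | cons Z L ih =>
    have : PW.un (Z :: L) = Z ∪ PW.un L := rfl
    rw [this, Finset.mem_union, ih]
    simp

theorem CYB_zero {N : ℕ} (L : List (Finset (Fin N))) (t : Fin N) (h : t ∉ PW.un L) :
    CYB_lam L t = 0 := by
  cases L with
  | nil => rfl
  | cons Z Zs =>
    rw [CYB_mem_un] at h
    have h1 : t ∉ PW.un Zs := by
      rw [CYB_mem_un]
      rintro ⟨Y, hY, ht⟩
      exact h ⟨Y, List.mem_cons_of_mem _ hY, ht⟩
    have h2 : t ∉ Z := fun ht => h ⟨Z, List.mem_cons_self, ht⟩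
    rw [CYB_lam, if_neg h1, if_neg h2]

theorem CYB_same {N : ℕ} (L : List (Finset (Fin N))) (t t' : Fin N)
    (h : ∀ Z ∈ L, (t ∈ Z ↔ t' ∈ Z)) : CYB_lam L t = CYB_lam L t' := by
  induction L with
  | nil => rfl
  | cons Z Zs ih =>
    have h1 : t ∈ PW.un Zs ↔ t' ∈ PW.un Zs := by
      rw [CYB_mem_un, CYB_mem_un]
      constructor
      · rintro ⟨Y, hY, ht⟩
        exact ⟨Y, hY, (h Y (List.mem_cons_of_mem _ hY)).1 ht⟩
      · rintro ⟨Y, hY, ht⟩
        exact ⟨Y, hY, (h Y (List.mem_cons_of_mem _ hY)).2 ht⟩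
    have h2 : t ∈ Z ↔ t' ∈ Z := h Z List.mem_cons_self
    have h3 := ih fun Y hY => h Y (List.mem_cons_of_mem _ hY)
    rw [CYB_lam, CYB_lam]
    by_cases h4 : t ∈ PW.un Zs
    · rw [if_pos h4, if_pos (h1.1 h4), h3]
    · rw [if_neg h4, if_neg (fun h5 => h4 (h1.2 h5))]
      by_cases h6 : t ∈ Z
      · rw [if_pos h6, if_pos (h2.1 h6)]
      · rw [if_neg h6, if_neg (fun h7 => h6 (h2.2 h7))]

theorem CYB_big {N D : ℕ} (L : List (Finset (Fin N))) (hP : PW.Priv D L) (c : ℕ) (h1 : 1 ≤ c)
    (h2 : c ≤ L.length) : D ≤ (univ.filter fun t => CYB_lam L t = c).card := by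
  induction L with
  | nil => simp at h2; omega
  | cons Z Zs ih =>
    rcases Nat.lt_or_ge Zs.length c with h3 | h3
    · have h4 : c = Zs.length + 1 := by simp at h2; omega
      refine hP.1.trans (Finset.card_le_card ?_)
      intro t ht
      rw [Finset.mem_sdiff] at ht
      rw [Finset.mem_filter]
      refine ⟨Finset.mem_univ _, ?_⟩
      rw [CYB_lam, if_neg ht.2, if_pos ht.1, h4]
    · refine (ih hP.2 h3).trans (Finset.card_le_card ?_)
      intro t ht
      rw [Finset.mem_filter] at ht ⊢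
      refine ⟨Finset.mem_univ _, ?_⟩
      have h5 : t ∈ PW.un Zs := by
        by_contra h6
        have := CYB_zero Zs t h6
        omega
      rw [CYB_lam, if_pos h5, ht.2]

theorem CYB_core (N r : ℕ) (hr : 1 ≤ r) (g : ℕ → ℕ)
    (hg : ∀ c ≤ r, 4 * r ≤ ((range N).filter fun t => g t = c).card) (X : Finset ℕ)
    (hX : ∀ t, t + 1 < N → g t ≠ g (t + 1) → t + 1 ∈ X ∧ t + 2 ∈ X) : 2 * r ≤ X.card := by
  classical
  by_contra hlt
  rw [not_le] at hlt
  -- step A
  have hA : ∀ c ≤ r, ∃ t, t + 1 < N ∧ g t = c ∧ g (t + 1) = c := by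
    intro c hc
    by_contra hno
    push Not at hno
    have h1 : (((range N).filter fun t => g t = c).erase (N - 1)).card ≤ X.card := by
      refine Finset.card_le_card_of_injOn (fun t => t + 1) ?_ ?_
      · intro t ht
        have ht' := Finset.mem_erase.1 (Finset.mem_coe.1 ht)
        rw [Finset.mem_filter, Finset.mem_range] at ht'
        obtain ⟨h2, h3, h4⟩ := ht'
        have h5 : t + 1 < N := by omega
        have h6 := hno t h5 h4
        exact Finset.mem_coe.2 (hX t h5 (by rw [h4]; exact fun h => h6 h.symm)).1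
      · intro a _ b _ hab
        simpa using hab
    have h2 := Finset.pred_card_le_card_erase (s := (range N).filter fun t => g t = c) (a := N - 1)
    have h3 := hg c hc
    omega
  -- step B
  have hB : ∀ c ≤ r, ∃ t, t + 1 < N ∧ g t = c ∧ g (t + 1) = c ∧
      ∀ u, t < u → ¬ (u + 1 < N ∧ g u = c ∧ g (u + 1) = c) := by
    intro c hc
    obtain ⟨t, ht⟩ := hA c hc
    have hne : ((range N).filter fun t => t + 1 < N ∧ g t = c ∧ g (t + 1) = c).Nonempty :=
      ⟨t, by rw [Finset.mem_filter, Finset.mem_range]; exact ⟨by omega, ht⟩⟩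
    obtain ⟨m, hm, hmax⟩ := Finset.exists_max_image _ (fun t => t) hne
    rw [Finset.mem_filter] at hm
    refine ⟨m, hm.2.1, hm.2.2.1, hm.2.2.2, ?_⟩
    intro u hu hcon
    have := hmax u (by rw [Finset.mem_filter, Finset.mem_range]; exact ⟨by omega, hcon⟩)
    omega
  choose! e he1 he2 he3 he4 using hB
  -- step C
  have hinj : ∀ c ≤ r, ∀ c' ≤ r, e c = e c' → c = c' := by
    intro c hc c' hc' h
    rw [← he2 c hc, ← he2 c' hc', h]
  have hadj : ∀ c ≤ r, ∀ c' ≤ r, e c + 1 = e c' → c = c' := by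
    intro c hc c' hc' h
    rw [← he3 c hc, ← he2 c' hc', h]
  have hS : r ≤ ((range (r + 1)).filter fun c => e c + 2 < N).card := by
    have h1 := Finset.card_filter_add_card_filter_not (s := range (r + 1)) (fun c => e c + 2 < N)
    have h2 : ((range (r + 1)).filter fun c => ¬ e c + 2 < N).card ≤ 1 := by
      rw [Finset.card_le_one]
      intro c hc c' hc'
      rw [Finset.mem_filter, Finset.mem_range] at hc hc'
      have h3 := he1 c (by omega)
      have h4 := he1 c' (by omega)
      exact hinj c (by omega) c' (by omega) (by omega)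
    rw [Finset.card_range] at h1
    omega
  -- step D
  have hD : (((range (r + 1)).filter fun c => e c + 2 < N).biUnion
      fun c => ({e c + 2, e c + 3} : Finset ℕ)).card =
        ∑ c ∈ (range (r + 1)).filter fun c => e c + 2 < N, ({e c + 2, e c + 3} : Finset ℕ).card := by
    apply Finset.card_biUnion
    intro c hc c' hc' hne
    rw [Finset.mem_coe, Finset.mem_filter, Finset.mem_range] at hc hc'
    show Disjoint ({e c + 2, e c + 3} : Finset ℕ) {e c' + 2, e c' + 3}
    have h1 := mt (hinj c (by omega) c' (by omega)) hne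
    have h2 := mt (hadj c (by omega) c' (by omega)) hne
    have h3 := mt (hadj c' (by omega) c (by omega)) (Ne.symm hne)
    rw [Finset.disjoint_left]
    intro x hx hx'
    simp only [Finset.mem_insert, Finset.mem_singleton] at hx hx'
    omega
  have hE : (((range (r + 1)).filter fun c => e c + 2 < N).biUnion
      fun c => ({e c + 2, e c + 3} : Finset ℕ)) ⊆ X := by
    intro x hx
    rw [Finset.mem_biUnion] at hx
    obtain ⟨c, hc, hx⟩ := hx
    rw [Finset.mem_filter, Finset.mem_range] at hc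
    have hcr : c ≤ r := by omega
    have h1 : g (e c + 1 + 1) ≠ c := by
      intro h
      exact he4 c hcr (e c + 1) (by omega) ⟨by omega, he3 c hcr, h⟩
    have h2 := hX (e c + 1) (by omega) (by rw [he3 c hcr]; exact fun h => h1 h.symm)
    simp only [Finset.mem_insert, Finset.mem_singleton] at hx
    rcases hx with rfl | rfl
    · exact h2.1
    · exact h2.2
  have hF := Finset.card_le_card hE
  rw [hD] at hF
  have h2 : ∀ c ∈ (range (r + 1)).filter (fun c => e c + 2 < N),
      ({e c + 2, e c + 3} : Finset ℕ).card = 2 := by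
    intro c _
    rw [Finset.card_pair]
    omega
  rw [Finset.sum_congr rfl h2, Finset.sum_const, smul_eq_mul] at hF
  omega

theorem strip_iso (N r : ℕ) (hr : 1 ≤ r) (L : List (Finset (Fin N))) (hL : L.length = r)
    (hP : PW.Priv (4 * r) L) (hE : 4 * r ≤ (univ \ PW.un L).card)
    (Xs : Finset (Fin (N + 2))) (hX : ∀ Z ∈ L, ∀ v, Bd Z v → v ∈ Xs) : 2 * r ≤ Xs.card := by
  classical
  have hcol : ∀ c ≤ r, 4 * r ≤ (univ.filter fun t => CYB_lam L t = c).card := by
    intro c hc
    rcases Nat.eq_zero_or_pos c with h0 | h0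
    · subst h0
      refine hE.trans (Finset.card_le_card ?_)
      intro t ht
      rw [Finset.mem_sdiff] at ht
      rw [Finset.mem_filter]
      exact ⟨Finset.mem_univ _, CYB_zero L t ht.2⟩
    · exact CYB_big L hP c h0 (by omega)
  have key := CYB_core N r hr (fun t => if h : t < N then CYB_lam L ⟨t, h⟩ else 0) (by
    intro c hc
    refine (hcol c hc).trans ?_
    refine Finset.card_le_card_of_injOn (fun t : Fin N => t.val) ?_ ?_
    · intro t ht
      have ht' := (Finset.mem_filter.1 (Finset.mem_coe.1 ht)).2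
      refine Finset.mem_coe.2 (Finset.mem_filter.2 ⟨Finset.mem_range.2 t.2, ?_⟩)
      simp only [t.2, dif_pos]
      exact ht'
    · intro a _ b _ hab
      exact Fin.ext hab) (Xs.image fun v => v.val) (by
    intro t ht hne
    have ht' : t < N := by omega
    simp only [ht, ht', dif_pos] at hne
    have h1 : ∃ Z ∈ L, ¬ ((⟨t, ht'⟩ : Fin N) ∈ Z ↔ (⟨t + 1, ht⟩ : Fin N) ∈ Z) := by
      by_contra h
      push Not at h
      exact hne (CYB_same L _ _ h)
    obtain ⟨Z, hZ, h2⟩ := h1
    have h3 : ∀ v : Fin (N + 2), t + 1 ≤ v.val → v.val ≤ t + 2 → v ∈ Xs := by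
      intro v hv1 hv2
      refine hX Z hZ v ?_
      have i1 : Inc (⟨t, ht'⟩ : Fin N) v := ⟨by simp only; omega, by simp only; omega⟩
      have i2 : Inc (⟨t + 1, ht⟩ : Fin N) v := ⟨by simp only; omega, by simp only; omega⟩
      by_cases h4 : (⟨t, ht'⟩ : Fin N) ∈ Z
      · have h5 : (⟨t + 1, ht⟩ : Fin N) ∉ Z := fun h => h2 ⟨fun _ => h, fun _ => h4⟩
        exact ⟨⟨_, h4, i1⟩, ⟨_, h5, i2⟩⟩
      · have h5 : (⟨t + 1, ht⟩ : Fin N) ∈ Z := by
          by_contra h
          exact h2 ⟨fun h6 => absurd h6 h4, fun h6 => absurd h6 h⟩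
        exact ⟨⟨_, h5, i2⟩, ⟨_, h4, i1⟩⟩
    refine ⟨Finset.mem_image.2 ⟨⟨t + 1, by omega⟩, h3 _ (by simp) (by simp), rfl⟩,
      Finset.mem_image.2 ⟨⟨t + 2, by omega⟩, h3 _ (by simp) (by simp), rfl⟩⟩)
  exact key.trans Finset.card_image_le

end Pool.Agent.H564R3.CY
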