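import Pool.Agent.H564R3.CY.Defs

/-! Strips: basic facts about the sets of variables of labelled strips (task C). -/

set_option autoImplicit false

namespace Pool.Agent.H564R3.CY

open Finset
open Pool.Agent.H564R3.PW (Instr runs exec syms)
open Pool.Agent.H564R3.TS

theorem CYC_sv_inj {N m : ℕ} (φ : Fin (N + 2) → Fin m) : Function.Injective (sv φ) := by
  intro i j h
  exact congrArg Prod.fst h

theorem CYC_mem_sset {N m : ℕ} (φ : Fin (N + 2) → Fin m) (x : Fin N × Fin m × Fin m × Fin m) :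
    x ∈ sset φ ↔ x = sv φ x.1 := by
  constructor
  · intro h
    obtain ⟨i, -, rfl⟩ := mem_image.mp h
    rfl
  · intro h
    rw [h]
    exact mem_image_of_mem _ (mem_univ _)

theorem CYC_mem_biUnion {N m : ℕ} (Y : Finset (Fin N × Fin m × Fin m × Fin m)) (i : Fin N) :
    i ∈ Y.biUnion spos ↔ ∃ y ∈ Y, y.1 = i := by
  simp only [mem_biUnion, spos, mem_singleton]
  constructor
  · rintro ⟨y, hy, rfl⟩; exact ⟨y, hy, rfl⟩
  · rintro ⟨y, hy, rfl⟩; exact ⟨y, hy, rfl⟩

theorem strip_exact {N m : ℕ} (φ : Fin (N + 2) → Fin m) : Exact spos 1 univ (sset φ) := by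
  refine ⟨fun x _ => by simp [spos], fun x _ => subset_univ _, ?_, ?_⟩
  · intro x hx y hy hne
    rw [CYC_mem_sset] at hx hy
    simp only [spos, disjoint_singleton]
    intro h
    apply hne
    rw [hx, hy, h]
  · intro e _
    exact ⟨sv φ e, mem_image_of_mem _ (mem_univ _), by simp [spos, sv]⟩

theorem strip_card {N m : ℕ} (φ : Fin (N + 2) → Fin m) : (sset φ).card = N := by
  unfold sset
  rw [card_image_of_injective _ (CYC_sv_inj φ), card_univ, Fintype.card_fin]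

theorem CYC_lab {N m : ℕ} {φ ψ : Fin (N + 2) → Fin m} {t : Fin N} {v : Fin (N + 2)}
    (hv : Inc t v) (h : sv φ t = sv ψ t) : φ v = ψ v := by
  have h1 : φ ⟨t.val, by omega⟩ = ψ ⟨t.val, by omega⟩ := congrArg (fun s => s.2.1) h
  have h2 : φ ⟨t.val + 1, by omega⟩ = ψ ⟨t.val + 1, by omega⟩ := congrArg (fun s => s.2.2.1) h
  have h3 : φ ⟨t.val + 2, by omega⟩ = ψ ⟨t.val + 2, by omega⟩ := congrArg (fun s => s.2.2.2) h
  obtain ⟨ha, hb⟩ := hv
  have hc : v.val = t.val ∨ v.val = t.val + 1 ∨ v.val = t.val + 2 := by omega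
  rcases hc with hc | hc | hc
  · have e : v = ⟨t.val, by omega⟩ := Fin.ext hc
    rw [e]; exact h1
  · have e : v = ⟨t.val + 1, by omega⟩ := Fin.ext hc
    rw [e]; exact h2
  · have e : v = ⟨t.val + 2, by omega⟩ := Fin.ext hc
    rw [e]; exact h3

theorem CYC_inj {N m : ℕ} (hN : 1 ≤ N) : Function.Injective (sset (N := N) (m := m)) := by
  intro φ ψ h
  funext v
  have hcov : ∃ t : Fin N, Inc t v := by
    rcases Nat.lt_or_ge v.val N with hx | hx
    · exact ⟨⟨v.val, hx⟩, le_rfl, Nat.le_add_right _ _⟩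
    · refine ⟨⟨N - 1, by omega⟩, ?_, ?_⟩
      · show N - 1 ≤ v.val
        omega
      · show v.val ≤ N - 1 + 2
        have := v.2
        omega
  obtain ⟨t, ht⟩ := hcov
  have h1 : sv φ t ∈ sset ψ := by
    rw [← h]; exact mem_image_of_mem _ (mem_univ _)
  exact CYC_lab ht ((CYC_mem_sset ψ _).mp h1)

theorem strip_sum {R : Type} [CommSemiring R] {N m : ℕ} (hN : 1 ≤ N)
    (w : Fin N × Fin m × Fin m × Fin m → R) :
    stripSum w = ∑ A ∈ univ.image (sset (N := N) (m := m)), ∏ x ∈ A, w x := by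
  rw [sum_image (fun a _ b _ h => CYC_inj hN h)]
  unfold stripSum sset
  refine sum_congr rfl fun φ _ => ?_
  rw [prod_image (fun a _ b _ h => CYC_sv_inj φ h)]

theorem strip_type {N m : ℕ} {T : Set (Fin N × Fin m × Fin m × Fin m → ℕ)}
    (hT : ∀ u ∈ T, ∃ χ : Fin (N + 2) → Fin m, ∀ t, u (sv χ t) ≠ 0)
    (φ ψ : Fin (N + 2) → Fin m) (Y Z : Finset (Fin N × Fin m × Fin m × Fin m))
    (hY : Y ⊆ sset φ) (hZ : Z ⊆ sset ψ) (hpos : Y.biUnion spos = Z.biUnion spos)
    (h : ind (sset φ \ Y) + ind Z ∈ T) (v : Fin (N + 2)) (hv : Bd (Y.biUnion spos) v) :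
    φ v = ψ v := by
  obtain ⟨χ, hχ⟩ := hT _ h
  have hor : ∀ i, sv χ i ∈ sset φ \ Y ∨ sv χ i ∈ Z := by
    intro i
    by_contra hcon
    rw [not_or] at hcon
    apply hχ i
    simp only [Pi.add_apply, ind, if_neg hcon.1, if_neg hcon.2]
  have hout : ∀ i, i ∉ Y.biUnion spos → sv χ i = sv φ i := by
    intro i hi
    rcases hor i with h1 | h1
    · exact (CYC_mem_sset φ _).mp (mem_sdiff.mp h1).1
    · exact absurd ((CYC_mem_biUnion Z i).mpr ⟨_, h1, rfl⟩) (hpos ▸ hi)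
  have hin : ∀ i, i ∈ Y.biUnion spos → sv χ i = sv ψ i := by
    intro i hi
    rcases hor i with h1 | h1
    · obtain ⟨y, hy, rfl⟩ := (CYC_mem_biUnion Y i).mp hi
      have h2 : sv χ y.1 = sv φ y.1 := (CYC_mem_sset φ _).mp (mem_sdiff.mp h1).1
      have h3 : y = sv φ y.1 := (CYC_mem_sset φ _).mp (hY hy)
      exfalso
      apply (mem_sdiff.mp h1).2
      rw [h2, ← h3]
      exact hy
    · exact (CYC_mem_sset ψ _).mp (hZ h1)
  obtain ⟨⟨e, he, hve⟩, ⟨e', he', hve'⟩⟩ := hv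
  have h3 : χ v = ψ v := CYC_lab hve (hin _ he)
  have h4 : χ v = φ v := CYC_lab hve' (hout _ he')
  exact h4.symm.trans h3

end Pool.Agent.H564R3.CY
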