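import Pool.Agent.H564R3.CY.Defs

/-! ### F: substitution of variables by variables or constants in a program -/

set_option autoImplicit false

namespace Pool.Agent.H564R3.CY

open Finset
open Pool.Agent.H564R3.PW (Instr runs exec syms)
open Pool.Agent.H564R3.TS

/-- the substituted instruction -/
def CYF_sub {R X X' ρ : Type} [CommSemiring R] (σ : X → X' ⊕ Bool) : Instr R X ρ → Instr R X' ρ
  | .load i x => match σ x with
    | Sum.inl x' => .load i x'
    | Sum.inr b => .const i (if b then 1 else 0)
  | .const i c => .const i c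
  | .add i j l => .add i j l
  | .mul i j l => .mul i j l

theorem CYF_run {R X X' ρ : Type} [CommSemiring R] [DecidableEq ρ] (σ : X → X' ⊕ Bool)
    (I : Instr R X ρ) (w' : X' → R) (v : ρ → R) :
    (CYF_sub σ I).run w' v =
      I.run (fun x => Sum.elim w' (fun b => if b then 1 else 0) (σ x)) v := by
  cases I with
  | load i x =>
    rcases h : σ x with x' | b
    · simp [CYF_sub, Instr.run, h]
    · simp [CYF_sub, Instr.run, h]
  | const i c => rfl
  | add i j l => rfl
  | mul i j l => rfl

theorem CYF_runs {R X X' ρ : Type} [CommSemiring R] [DecidableEq ρ] (σ : X → X' ⊕ Bool)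
    (p : List (Instr R X ρ)) (w' : X' → R) (v : ρ → R) :
    runs w' (p.map (CYF_sub σ)) v =
      runs (fun x => Sum.elim w' (fun b => if b then 1 else 0) (σ x)) p v := by
  unfold runs
  rw [List.foldl_map]
  congr 1
  funext v I
  exact CYF_run σ I w' v

theorem exec_subst {R X X' ρ : Type} [CommSemiring R] [DecidableEq ρ] (σ : X → X' ⊕ Bool)
    (p : List (Instr R X ρ)) :
    ∃ p' : List (Instr R X' ρ), p'.length = p.length ∧
      ∀ w' : X' → R, exec w' p' = exec (fun x => Sum.elim w' (fun b => if b then 1 else 0) (σ x)) p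
      :=
  ⟨p.map (CYF_sub σ), by simp, fun w' => CYF_runs σ p w' _⟩

end Pool.Agent.H564R3.CY
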