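import Pool.Agent.H564R3.CY.Defs
import Pool.Agent.H564R3.PW.Prog

/-! The cubic-time algorithm with (n + 1) ^ 2 + 2 registers. -/

set_option autoImplicit false

namespace Pool.Agent.H564R3.CY

open Finset
open Pool.Agent.H564R3.PW (Instr runs exec syms L1_runs_append L1_runs_cons L1_runs_nil
  L1_len_flatMap)
open Pool.Agent.H564R3.TS

section CYG

variable {R : Type} [CommSemiring R]

/-- the registers -/
abbrev CYG_reg (n : ℕ) : Type := (Fin (n + 1) × Fin (n + 1)) ⊕ Fin 2

/-- the register of the interval from `i` of length `l` -/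
def CYG_cell (n i l : ℕ) : CYG_reg n := Sum.inl (Fin.ofNat (n + 1) i, Fin.ofNat (n + 1) l)

theorem CYG_cell_inj {n i l i' l' : ℕ} (hi : i ≤ n) (hl : l ≤ n) (hi' : i' ≤ n) (hl' : l' ≤ n)
    (h : CYG_cell n i l = CYG_cell n i' l') : i = i' ∧ l = l' := by
  unfold CYG_cell at h
  have h2 := Sum.inl.inj h
  have h3 := congrArg (fun p => (Prod.fst p).val) h2
  have h4 := congrArg (fun p => (Prod.snd p).val) h2
  simp only [Fin.ofNat_eq_cast, Fin.val_natCast] at h3 h4
  rw [Nat.mod_eq_of_lt (by omega), Nat.mod_eq_of_lt (by omega)] at h3 h4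
  exact ⟨h3, h4⟩

/-- the variable -/
def CYG_x (n i k j : ℕ) : Fin (n + 1) × Fin (n + 1) × Fin (n + 1) :=
  (Fin.ofNat (n + 1) i, Fin.ofNat (n + 1) k, Fin.ofNat (n + 1) j)

variable (R) in
/-- one product -/
def CYG_f (n i l a : ℕ) :
    List (Instr R (Fin (n + 1) × Fin (n + 1) × Fin (n + 1)) (CYG_reg n)) :=
  [Instr.load (Sum.inr 0) (CYG_x n i (i + a + 1) (i + l + 2)),
   Instr.mul (Sum.inr 0) (Sum.inr 0) (CYG_cell n i (a + 1)),
   Instr.mul (Sum.inr 0) (Sum.inr 0) (CYG_cell n (i + a + 1) (l + 1 - a)),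
   Instr.add (CYG_cell n i (l + 2)) (CYG_cell n i (l + 2)) (Sum.inr 0)]

variable (R) in
/-- the program of a cell -/
def CYG_blk (n : ℕ) : ℕ → ℕ →
    List (Instr R (Fin (n + 1) × Fin (n + 1) × Fin (n + 1)) (CYG_reg n))
  | 0, i => [Instr.const (CYG_cell n i 0) 1]
  | 1, i => [Instr.const (CYG_cell n i 1) 1]
  | l + 2, i => (List.range (l + 1)).flatMap (CYG_f R n i l)

variable (R) in
/-- the program of a length -/
def CYG_stage (n l : ℕ) : List (Instr R (Fin (n + 1) × Fin (n + 1) × Fin (n + 1)) (CYG_reg n)) :=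
  (List.range (n + 1 - l)).flatMap (CYG_blk R n l)

variable (R) in
/-- the program -/
def CYG_prog (n L : ℕ) : List (Instr R (Fin (n + 1) × Fin (n + 1) × Fin (n + 1)) (CYG_reg n)) :=
  (List.range L).flatMap (CYG_stage R n)

/-- the weights as a function on natural numbers -/
def CYG_W {n : ℕ} (w : Fin (n + 1) × Fin (n + 1) × Fin (n + 1) → R) (i k j : ℕ) : R :=
  w (CYG_x n i k j)

/-- the invariant -/
def CYG_Inv {n : ℕ} (w : Fin (n + 1) × Fin (n + 1) × Fin (n + 1) → R) (L I : ℕ)
    (v : CYG_reg n → R) : Prop :=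
  ∀ i l, i + l ≤ n → v (CYG_cell n i l) =
    if (l < L ∨ (l = L ∧ i < I)) then bracket (CYG_W w) i l else 0

theorem CYG_f_run {n : ℕ} (w : Fin (n + 1) × Fin (n + 1) × Fin (n + 1) → R) (i l a : ℕ)
    (v : CYG_reg n → R) :
    runs w (CYG_f R n i l a) v (CYG_cell n i (l + 2)) = v (CYG_cell n i (l + 2)) +
      CYG_W w i (i + a + 1) (i + l + 2) * v (CYG_cell n i (a + 1)) *
        v (CYG_cell n (i + a + 1) (l + 1 - a)) ∧
    ∀ r, r ≠ CYG_cell n i (l + 2) → r ≠ Sum.inr 0 → runs w (CYG_f R n i l a) v r = v r := by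
  have c1 : (CYG_cell n i (l + 2)) ≠ Sum.inr 0 := by simp [CYG_cell]
  have c2 : (CYG_cell n i (a + 1)) ≠ Sum.inr 0 := by simp [CYG_cell]
  have c3 : (CYG_cell n (i + a + 1) (l + 1 - a)) ≠ Sum.inr 0 := by simp [CYG_cell]
  unfold CYG_f
  rw [L1_runs_cons, L1_runs_cons, L1_runs_cons, L1_runs_cons, L1_runs_nil]
  simp only [Instr.run]
  refine ⟨?_, fun r hr hr0 => ?_⟩
  · simp only [Function.update_self, Function.update_of_ne c1, Function.update_of_ne c2,
      Function.update_of_ne c3]
    rfl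
  · rw [Function.update_of_ne hr, Function.update_of_ne hr0, Function.update_of_ne hr0,
      Function.update_of_ne hr0]

theorem CYG_inner {n : ℕ} (w : Fin (n + 1) × Fin (n + 1) × Fin (n + 1) → R) (I l : ℕ)
    (hI : I + (l + 2) ≤ n) (v : CYG_reg n → R) (hv : CYG_Inv w (l + 2) I v) : ∀ A ≤ l + 1,
    runs w ((List.range A).flatMap (CYG_f R n I l)) v (CYG_cell n I (l + 2)) =
      ∑ a ∈ range A, CYG_W w I (I + a + 1) (I + l + 2) * bracket (CYG_W w) I (a + 1) *
        bracket (CYG_W w) (I + a + 1) (l + 1 - a) ∧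
    ∀ i l', i + l' ≤ n → ¬ (i = I ∧ l' = l + 2) →
      runs w ((List.range A).flatMap (CYG_f R n I l)) v (CYG_cell n i l') =
        v (CYG_cell n i l') := by
  intro A
  induction A with
  | zero =>
    intro _
    refine ⟨?_, fun i l' _ _ => rfl⟩
    rw [List.range_zero, List.flatMap_nil, L1_runs_nil, Finset.range_zero, Finset.sum_empty,
      hv I (l + 2) hI, if_neg]
    omega
  | succ A ih =>
    intro hA
    obtain ⟨i1, i2⟩ := ih (by omega)
    rw [List.range_succ, List.flatMap_append, L1_runs_append, List.flatMap_singleton]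
    obtain ⟨b1, b2⟩ := CYG_f_run w I l A (runs w ((List.range A).flatMap (CYG_f R n I l)) v)
    refine ⟨?_, fun i l' hil hne => ?_⟩
    · rw [b1, i1, Finset.sum_range_succ, i2 I (A + 1) (by omega) (by omega),
        i2 (I + A + 1) (l + 1 - A) (by omega) (by omega), hv I (A + 1) (by omega),
        hv (I + A + 1) (l + 1 - A) (by omega), if_pos (by omega), if_pos (by omega)]
    · rw [b2 _ ?_ (by simp [CYG_cell]), i2 i l' hil hne]
      intro h
      exact hne (CYG_cell_inj (by omega) (by omega) (by omega) (by omega) h)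

theorem CYG_blk_run {n : ℕ} (w : Fin (n + 1) × Fin (n + 1) × Fin (n + 1) → R) (L I : ℕ)
    (hI : I + L ≤ n) (v : CYG_reg n → R) (hv : CYG_Inv w L I v) :
    CYG_Inv w L (I + 1) (runs w (CYG_blk R n L I) v) := by
  have hconst : ∀ L, I + L ≤ n → CYG_Inv w L I v → bracket (CYG_W w) I L = 1 →
      CYG_Inv w L (I + 1) (runs w [Instr.const (CYG_cell n I L) 1] v) := by
    intro L hI hv hb i l hil
    rw [L1_runs_cons, L1_runs_nil]
    simp only [Instr.run]
    by_cases h : i = I ∧ l = L
    · obtain ⟨rfl, rfl⟩ := h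
      rw [Function.update_self, if_pos (by omega), hb]
    · rw [Function.update_of_ne, hv i l hil]
      · congr 1
        apply propext
        omega
      · intro h2
        exact h (CYG_cell_inj (by omega) (by omega) (by omega) (by omega) h2)
  match L, hI, hv with
  | 0, hI, hv => exact hconst 0 hI hv (by rw [bracket])
  | 1, hI, hv => exact hconst 1 hI hv (by rw [bracket])
  | l + 2, hI, hv =>
    obtain ⟨b1, b2⟩ := CYG_inner w I l hI v hv (l + 1) le_rfl
    intro i l' hil
    unfold CYG_blk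
    by_cases h : i = I ∧ l' = l + 2
    · obtain ⟨rfl, rfl⟩ := h
      rw [b1, if_pos (by omega), bracket, ← Fin.sum_univ_eq_sum_range (fun a =>
        CYG_W w i (i + a + 1) (i + l + 2) * bracket (CYG_W w) i (a + 1) *
        bracket (CYG_W w) (i + a + 1) (l + 1 - a))]
    · rw [b2 i l' hil h, hv i l' hil]
      congr 1
      apply propext
      omega

theorem CYG_stage_run {n : ℕ} (w : Fin (n + 1) × Fin (n + 1) × Fin (n + 1) → R) (L : ℕ)
    (v : CYG_reg n → R) (hv : CYG_Inv w L 0 v) : ∀ I ≤ n + 1 - L,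
    CYG_Inv w L I (runs w ((List.range I).flatMap (CYG_blk R n L)) v) := by
  intro I
  induction I with
  | zero => intro _; exact hv
  | succ I ih =>
    intro hI
    rw [List.range_succ, List.flatMap_append, L1_runs_append, List.flatMap_singleton]
    exact CYG_blk_run w L I (by omega) _ (ih (by omega))

theorem CYG_prog_run {n : ℕ} (w : Fin (n + 1) × Fin (n + 1) × Fin (n + 1) → R) : ∀ L : ℕ,
    CYG_Inv w L 0 (exec w (CYG_prog R n L)) := by
  intro L
  induction L with
  | zero =>
    intro i l hil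
    rw [if_neg (by omega)]
    rfl
  | succ L ih =>
    have h1 : exec w (CYG_prog R n (L + 1)) =
        runs w (CYG_stage R n L) (exec w (CYG_prog R n L)) := by
      unfold exec CYG_prog
      rw [List.range_succ, List.flatMap_append, L1_runs_append, List.flatMap_singleton]
    rw [h1]
    have h2 := CYG_stage_run w L (exec w (CYG_prog R n L)) ih (n + 1 - L) le_rfl
    intro i l hil
    have h3 := h2 i l hil
    unfold CYG_stage
    rw [h3]
    congr 1
    apply propext
    omega

theorem CYG_blk_length (n l i : ℕ) (hl : l ≤ n) : (CYG_blk R n l i).length ≤ 4 * (n + 1) := by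
  match l, hl with
  | 0, hl => simp only [CYG_blk, List.length_cons, List.length_nil]; omega
  | 1, hl => simp only [CYG_blk, List.length_cons, List.length_nil]; omega
  | l + 2, hl =>
    unfold CYG_blk
    refine (L1_len_flatMap (CYG_f R n i l) (List.range (l + 1)) 4 (fun a => le_rfl)).trans ?_
    rw [List.length_range]
    omega

theorem CYG_stage_length (n l : ℕ) (hl : l ≤ n) :
    (CYG_stage R n l).length ≤ (n + 1) * (4 * (n + 1)) := by
  unfold CYG_stage
  refine (L1_len_flatMap (CYG_blk R n l) (List.range (n + 1 - l)) (4 * (n + 1))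
    (fun i => CYG_blk_length n l i hl)).trans ?_
  rw [List.length_range]
  exact Nat.mul_le_mul_right _ (by omega)

theorem CYG_prog_length (n : ℕ) : ∀ L ≤ n + 1,
    (CYG_prog R n L).length ≤ L * ((n + 1) * (4 * (n + 1))) := by
  intro L
  induction L with
  | zero => intro _; simp [CYG_prog]
  | succ L ih =>
    intro hL
    have h1 := ih (by omega)
    have h2 := CYG_stage_length (R := R) n L (by omega)
    unfold CYG_prog at h1 ⊢
    rw [List.range_succ, List.flatMap_append, List.flatMap_singleton, List.length_append]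
    calc _ ≤ L * ((n + 1) * (4 * (n + 1))) + (n + 1) * (4 * (n + 1)) := Nat.add_le_add h1 h2
      _ = (L + 1) * ((n + 1) * (4 * (n + 1))) := by ring

end CYG

theorem tri_upper {R : Type} [CommSemiring R] (n : ℕ) :
    ∃ (ρ : Type) (_ : Fintype ρ) (_ : DecidableEq ρ)
      (p : List (Instr R (Fin (n + 1) × Fin (n + 1) × Fin (n + 1)) ρ)) (o : ρ),
      Fintype.card ρ = (n + 1) ^ 2 + 2 ∧ p.length ≤ 5 * (n + 1) ^ 3 ∧
      ∀ w : Fin (n + 1) × Fin (n + 1) × Fin (n + 1) → R, exec w p o = triSum w := by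
  refine ⟨CYG_reg n, inferInstance, inferInstance, CYG_prog R n (n + 1), CYG_cell n 0 n, ?_, ?_, ?_⟩
  · rw [Fintype.card_sum, Fintype.card_prod, Fintype.card_fin, Fintype.card_fin, pow_two]
  · refine (CYG_prog_length n (n + 1) le_rfl).trans ?_
    calc (n + 1) * ((n + 1) * (4 * (n + 1))) = 4 * (n + 1) ^ 3 := by ring
      _ ≤ 5 * (n + 1) ^ 3 := Nat.mul_le_mul_right _ (by norm_num)
  · intro w
    rw [CYG_prog_run w (n + 1) 0 n (by omega), if_pos (by omega)]
    rfl

end Pool.Agent.H564R3.CY
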