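import Pool.Agent.H564R3.CY.Gen
import Pool.Agent.H564R3.CY.Num
import Pool.Agent.H564R3.CY.StripIso
import Pool.Agent.H564R3.CY.Strips
import Pool.Agent.H564R3.CY.Subst
import Pool.Agent.H564R3.CY.Upper
import Pool.Agent.H564R3.PW.Num

/-! The lower bound for straight-line programs which produce the labellings of a strip. -/

set_option autoImplicit false

namespace Pool.Agent.H564R3.CY

open Finset
open Pool.Agent.H564R3.PW (Instr runs exec syms)
open Pool.Agent.H564R3.TS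

theorem strip_lower {R ρ : Type} [Zero R] [Fintype ρ] [DecidableEq ρ] {L m : ℕ} (hm : 1 ≤ m)
    (p : List (Instr R (Fin (2 * L) × Fin m × Fin m × Fin m) ρ)) (o : ρ)
    (g1 : ∀ A ∈ univ.image (sset (N := 2 * L) (m := m)), ind A ∈ syms p o)
    (g2 : ∀ u ∈ syms p o, ∃ A ∈ univ.image (sset (N := 2 * L) (m := m)), ∀ x ∈ A, u x ≠ 0)
    (r : ℕ) (hr : 1 ≤ r) (hn : (8 * r + 1) * 512 ^ r ≤ 2 * L) :
    (m ^ 2) ^ r ≤ (64 * Fintype.card ρ) ^ r * p.length ^ 2 := by
  classical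
  have hp : 1 ≤ p.length := by
    rcases p with _ | ⟨a, l⟩
    · have h1 := g1 _ (mem_image_of_mem (sset (N := 2 * L) (m := m))
        (mem_univ (fun _ => ⟨0, hm⟩)))
      exact absurd h1 (Set.notMem_empty _)
    · simp
  have hT : Cov spos (syms p o) := by
    intro u hu e
    obtain ⟨A, hA, hAu⟩ := g2 u hu
    rw [mem_image] at hA
    obtain ⟨φ, _, rfl⟩ := hA
    obtain ⟨x, hx, hex⟩ := (strip_exact φ).cover e (mem_univ e)
    exact ⟨x, hAu x hx, hex⟩
  have hTp : ∀ u ∈ syms p o, ∃ χ : Fin (2 * L + 2) → Fin m, ∀ t, u (sv χ t) ≠ 0 := by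
    intro u hu
    obtain ⟨A, hA, hAu⟩ := g2 u hu
    rw [mem_image] at hA
    obtain ⟨χ, _, rfl⟩ := hA
    exact ⟨χ, fun t => hAu _ (mem_image_of_mem _ (mem_univ t))⟩
  refine PW.num_lower hr hp fun M hM hMT => ?_
  refine gen_count (V := Fin (2 * L + 2)) (E := Fin (2 * L)) hm (sup := spos) p o hT sset
    (fun φ => strip_exact φ) (fun φ => g1 _ (mem_image_of_mem _ (mem_univ φ))) Bd
    (fun φ ψ Y Z hY hZ hpos h v hv => strip_type hTp φ ψ Y Z hY hZ hpos h v hv)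
    (4 * r) M r 2 r (by omega) hM hr
    (fun Ls hL hP hE Xs hX => strip_iso (2 * L) r hr Ls hL hP hE Xs hX) hMT ?_
  rw [Fintype.card_fin]
  have h2 : (8 : ℕ) ^ r * 64 ^ r = 512 ^ r := by
    rw [← mul_pow]
    norm_num
  calc (2 * (4 * r) + 1) * 8 ^ r * 64 ^ r = (8 * r + 1) * 512 ^ r := by
        rw [mul_assoc, h2]
        ring_nf
    _ ≤ 2 * L := hn

end Pool.Agent.H564R3.CY
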