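import Pool.Agent.H564R3.CY.Defs

/-! Stubs (statements only): every theorem goes to its own file, see `h564m_tasks`. -/

set_option autoImplicit false

namespace Pool.Agent.H564R3.CY

open Finset
open Pool.Agent.H564R3.PW (Instr runs exec syms)
open Pool.Agent.H564R3.TS

/-! ### A (Gen.lean): the counting theorem for registers in number at least the labels -/

theorem gen_count {R X E V ρ : Type} [Zero R] [DecidableEq X] [Fintype E] [DecidableEq E]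
    [Fintype V] [DecidableEq V] [Fintype ρ] [DecidableEq ρ] {m : ℕ} (hm : 1 ≤ m)
    {sup : X → Finset E} (p : List (Instr R X ρ)) (o : ρ)
    (hT : Cov sup (syms p o)) (A : (V → Fin m) → Finset X)
    (hA : ∀ φ, Exact sup 1 univ (A φ)) (hmem : ∀ φ, ind (A φ) ∈ syms p o)
    (Bdr : Finset E → V → Prop)
    (htype : ∀ φ ψ : V → Fin m, ∀ Y Z : Finset X, Y ⊆ A φ → Z ⊆ A ψ →
      Y.biUnion sup = Z.biUnion sup → ind (A φ \ Y) + ind Z ∈ syms p o →
        ∀ v, Bdr (Y.biUnion sup) v → φ v = ψ v)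
    (D M H k r : ℕ) (hD : 1 ≤ D) (hM : 1 ≤ M) (hr : 1 ≤ r)
    (hiso : ∀ L : List (Finset E), L.length = r → PW.Priv D L → D ≤ (univ \ PW.un L).card →
      ∀ Xs : Finset V, (∀ Z ∈ L, ∀ v, Bdr Z v → v ∈ Xs) → k * r ≤ Xs.card)
    (hlen : p.length ≤ M ^ H) (hn : (2 * D + 1) * 8 ^ H * 64 ^ r ≤ Fintype.card E) :
    (m ^ k) ^ r ≤ (4 * M) ^ (H + r) * Fintype.card ρ ^ r := by
  sorry

/-! ### B (StripIso.lean) -/

theorem strip_iso (N r : ℕ) (hr : 1 ≤ r) (L : List (Finset (Fin N))) (hL : L.length = r)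
    (hP : PW.Priv (4 * r) L) (hE : 4 * r ≤ (univ \ PW.un L).card)
    (Xs : Finset (Fin (N + 2))) (hX : ∀ Z ∈ L, ∀ v, Bd Z v → v ∈ Xs) : 2 * r ≤ Xs.card := by
  sorry

/-! ### C (Strips.lean) -/

theorem strip_exact {N m : ℕ} (φ : Fin (N + 2) → Fin m) : Exact spos 1 univ (sset φ) := by
  sorry

theorem strip_card {N m : ℕ} (φ : Fin (N + 2) → Fin m) : (sset φ).card = N := by
  sorry

theorem strip_sum {R : Type} [CommSemiring R] {N m : ℕ} (hN : 1 ≤ N)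
    (w : Fin N × Fin m × Fin m × Fin m → R) :
    stripSum w = ∑ A ∈ univ.image (sset (N := N) (m := m)), ∏ x ∈ A, w x := by
  sorry

theorem strip_type {N m : ℕ} {T : Set (Fin N × Fin m × Fin m × Fin m → ℕ)}
    (hT : ∀ u ∈ T, ∃ χ : Fin (N + 2) → Fin m, ∀ t, u (sv χ t) ≠ 0)
    (φ ψ : Fin (N + 2) → Fin m) (Y Z : Finset (Fin N × Fin m × Fin m × Fin m))
    (hY : Y ⊆ sset φ) (hZ : Z ⊆ sset ψ) (hpos : Y.biUnion spos = Z.biUnion spos)
    (h : ind (sset φ \ Y) + ind Z ∈ T) (v : Fin (N + 2)) (hv : Bd (Y.biUnion spos) v) :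
    φ v = ψ v := by
  sorry

/-! ### D (Tail.lean) -/

/-- the sum over a strip by recursion -/
theorem strip_tail {R : Type} [CommSemiring R] (N m : ℕ) (w : ℕ → Fin m → Fin m → Fin m → R) :
    stripSum (N := N) (fun x => w x.1.val x.2.1 x.2.2.1 x.2.2.2) =
      ∑ a : Fin m, ∑ b : Fin m, tail w N 0 a b := by
  sorry

/-! ### E (Embed.lean; uses D) -/

theorem tri_strip (L m n : ℕ) (hm : 1 ≤ m) (hn : 2 * (L + 1) * m + 1 ≤ n) :
    ∃ σ : Fin (n + 1) × Fin (n + 1) × Fin (n + 1) →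
        (Fin (2 * L) × Fin m × Fin m × Fin m) ⊕ Bool,
      ∀ (R : Type) [CommSemiring R] (w' : Fin (2 * L) × Fin m × Fin m × Fin m → R),
        triSum (n := n) (fun x => Sum.elim w' (fun b => if b then 1 else 0) (σ x)) =
          stripSum w' := by
  sorry

/-! ### F (Subst.lean) -/

theorem exec_subst {R X X' ρ : Type} [CommSemiring R] [DecidableEq ρ] (σ : X → X' ⊕ Bool)
    (p : List (Instr R X ρ)) :
    ∃ p' : List (Instr R X' ρ), p'.length = p.length ∧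
      ∀ w' : X' → R, exec w' p' = exec (fun x => Sum.elim w' (fun b => if b then 1 else 0) (σ x)) p
      := by
  sorry

/-! ### G (Upper.lean): the cubic-time algorithm -/

theorem tri_upper {R : Type} [CommSemiring R] (n : ℕ) :
    ∃ (ρ : Type) (_ : Fintype ρ) (_ : DecidableEq ρ)
      (p : List (Instr R (Fin (n + 1) × Fin (n + 1) × Fin (n + 1)) ρ)) (o : ρ),
      Fintype.card ρ = (n + 1) ^ 2 + 2 ∧ p.length ≤ 5 * (n + 1) ^ 3 ∧
      ∀ w : Fin (n + 1) × Fin (n + 1) × Fin (n + 1) → R, exec w p o = triSum w := by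
  sorry

/-! ### H (Num.lean) -/

theorem tri_num (c : ℕ) (ε : ℝ) (hε : 0 < ε) : ∃ n₀ : ℕ, ∀ n ≥ n₀, ∀ S T : ℕ,
    (∀ L m r : ℕ, 1 ≤ m → 1 ≤ r → 2 * (L + 1) * m + 1 ≤ n → (8 * r + 1) * 512 ^ r ≤ 2 * L →
      (m ^ 2) ^ r ≤ (64 * S) ^ r * T ^ 2) →
    (T : ℝ) ≤ (n : ℝ) ^ c → (n : ℝ) ^ (2 - ε) ≤ S := by
  sorry

end Pool.Agent.H564R3.CY
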