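import Pool.Agent.H564R3.CY.Defs

/-! Stub I: the linear case, see `h564m_tasks`. -/

set_option autoImplicit false

namespace Pool.Agent.H564R3.CY

open Finset
open Pool.Agent.H564R3.PW (Instr runs exec syms)
open Pool.Agent.H564R3.TS

/-! ### I (LinUpper.lean): the linear case (only the triangles `(i, i + 1, j)` and `(i, j - 1, j)`
have a weight): diagonal by diagonal with `n + 3` registers -/

theorem linear_upper {R : Type} [CommSemiring R] (n : ℕ) :
    ∃ (ρ : Type) (_ : Fintype ρ) (_ : DecidableEq ρ)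
      (p : List (Instr R (Fin (n + 1) × Fin (n + 1) × Fin (n + 1)) ρ)) (o : ρ),
      Fintype.card ρ = n + 3 ∧ p.length ≤ 5 * (n + 1) ^ 2 ∧
      ∀ w : Fin (n + 1) × Fin (n + 1) × Fin (n + 1) → R,
        (∀ i k j : Fin (n + 1), k.val ≠ i.val + 1 → k.val + 1 ≠ j.val → w (i, k, j) = 0) →
        exec w p o = triSum w := by
  sorry

end Pool.Agent.H564R3.CY
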